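import Mathlib
import Pool.Agent.W747.MB.Defs

/-! Lower Vitali estimate; points where a function has a prescribed direction. -/

set_option autoImplicit false
open Metric MeasureTheory Set Filter Topology

namespace Pool.Agent.TH363.CD

/-- A lower covering estimate. -/
theorem vitali_lower (P U S : Set ℂ) (r : ℂ → ℝ) (R₁ K : ℝ)
    (h : ∀ x ∈ P, 0 < r x ∧ r x ≤ R₁ ∧ closedBall x (r x) ⊆ U ∧
      volume (closedBall x (5 * r x)) ≤ ENNReal.ofReal K * volume (S ∩ closedBall x (r x))) :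
    volume P ≤ ENNReal.ofReal K * volume (S ∩ U) := by
  obtain ⟨u, huP, hdisj, hcov⟩ := Vitali.exists_disjoint_subfamily_covering_enlargement_closedBall
    P (fun x : ℂ => x) r R₁ (fun a ha => (h a ha).2.1) 5 (by norm_num)
  have hcount : u.Countable := by
    apply hdisj.countable_of_nonempty_interior
    intro x hx
    refine ⟨x, ?_⟩
    rw [interior_closedBall x (h x (huP hx)).1.ne']
    exact mem_ball_self (h x (huP hx)).1
  have hsub : P ⊆ ⋃ b ∈ u, closedBall b (5 * r b) := by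
    intro x hxP
    obtain ⟨b, hb, hxb⟩ := hcov x hxP
    rw [mem_iUnion₂]
    exact ⟨b, hb, hxb (mem_closedBall_self (h x hxP).1.le)⟩
  calc volume P ≤ volume (⋃ b ∈ u, closedBall b (5 * r b)) := measure_mono hsub
    _ ≤ ∑' b : u, volume (closedBall (b : ℂ) (5 * r b)) := measure_biUnion_le _ hcount _
    _ ≤ ∑' b : u, ENNReal.ofReal K * volume (S ∩ closedBall (b : ℂ) (r b)) :=
        ENNReal.tsum_le_tsum fun b => (h b (huP b.2)).2.2.2
    _ = ENNReal.ofReal K * ∑' b : u, volume (S ∩ closedBall (b : ℂ) (r b)) :=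
        ENNReal.tsum_mul_left
    _ = ENNReal.ofReal K * ∑' b : u, (volume.restrict S) (closedBall (b : ℂ) (r b)) := by
        congr 1
        refine tsum_congr fun b => ?_
        rw [Measure.restrict_apply measurableSet_closedBall, inter_comm]
    _ = ENNReal.ofReal K * (volume.restrict S) (⋃ b ∈ u, closedBall b (r b)) := by
        rw [measure_biUnion hcount hdisj (fun b _ => measurableSet_closedBall)]
    _ = ENNReal.ofReal K * volume (S ∩ (⋃ b ∈ u, closedBall b (r b))) := by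
        rw [Measure.restrict_apply (MeasurableSet.biUnion hcount
          fun b _ => measurableSet_closedBall), inter_comm]
    _ ≤ ENNReal.ofReal K * volume (S ∩ U) := by
        gcongr
        exact iUnion₂_subset fun b hb => (h b (huP hb)).2.2.1

/-- Near `x` there is a point at which `g` has the direction of `w`. -/
theorem exists_dir {g ℓ : ℂ → ℂ} {x ℓ₀ w : ℂ} {r : ℝ} (hℓ₀ : ℓ₀ ≠ 0) (hr : 14 / ‖ℓ₀‖ < r)
    (hg : ∀ c ∈ ball x r, g c ≠ 0 ∧ HasDerivAt g (g c * ℓ c) c ∧ ‖ℓ c - ℓ₀‖ ≤ ‖ℓ₀‖ / 2 ∧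
      ContinuousAt ℓ c) (hw : w ≠ 0) :
    ∃ c ∈ closedBall x (14 / ‖ℓ₀‖), ∃ t : ℝ, 0 < t ∧ g c = t * w := by
  have hl0 : 0 < ‖ℓ₀‖ := norm_pos_iff.2 hℓ₀
  set T : ℝ := 14 / ‖ℓ₀‖ with hT
  have hT0 : 0 < T := by positivity
  set u : ℂ := Complex.I * (starRingEnd ℂ) ℓ₀ / ‖ℓ₀‖ with hu
  have hun : ‖u‖ = 1 := by
    rw [hu, norm_div, norm_mul, Complex.norm_I, one_mul, RCLike.norm_conj, Complex.norm_real,
      norm_norm, div_self hl0.ne']
  have hlu : ℓ₀ * u = Complex.I * ‖ℓ₀‖ := by
    have h1 : ℓ₀ * (starRingEnd ℂ) ℓ₀ = (‖ℓ₀‖ : ℂ) ^ 2 := by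
      rw [Complex.mul_conj, Complex.normSq_eq_norm_sq]
      push_cast
      ring
    have h2 : (‖ℓ₀‖ : ℂ) ≠ 0 := by exact_mod_cast hl0.ne'
    rw [hu]
    field_simp
    exact h1
  set γ : ℝ → ℂ := fun s => x + s * u with hγ
  have hγd : ∀ s, HasDerivAt γ u s := by
    intro s
    have h1 : HasDerivAt (fun s : ℝ => (s : ℂ)) 1 s := Complex.ofRealCLM.hasDerivAt
    simpa [hγ] using (h1.mul_const u).const_add x
  have hγm : ∀ s : ℝ, |s| < r → γ s ∈ ball x r := by
    intro s hs
    rw [mem_ball, dist_eq_norm, hγ]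
    simp only [add_sub_cancel_left]
    rw [norm_mul, hun, mul_one, Complex.norm_real, Real.norm_eq_abs]
    exact hs
  set φ : ℝ → ℂ := fun s => ℓ (γ s) * u with hφ
  have hφc : ∀ s : ℝ, |s| < r → ContinuousAt φ s := by
    intro s hs
    have h1 := (hg _ (hγm s hs)).2.2.2
    exact (ContinuousAt.comp (f := γ) h1 (hγd s).continuousAt).mul continuousAt_const
  have hφim : ∀ s : ℝ, |s| < r → ‖ℓ₀‖ / 2 ≤ (φ s).im := by
    intro s hs
    have h1 := (hg _ (hγm s hs)).2.2.1
    have h2 : φ s = Complex.I * ‖ℓ₀‖ + (ℓ (γ s) - ℓ₀) * u := by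
      rw [hφ, ← hlu]; ring
    have h3 : ‖(ℓ (γ s) - ℓ₀) * u‖ ≤ ‖ℓ₀‖ / 2 := by rw [norm_mul, hun, mul_one]; exact h1
    have h4 := Complex.abs_im_le_norm ((ℓ (γ s) - ℓ₀) * u)
    have h5 := neg_abs_le ((ℓ (γ s) - ℓ₀) * u).im
    rw [h2, Complex.add_im]
    have h6 : (Complex.I * (‖ℓ₀‖ : ℂ)).im = ‖ℓ₀‖ := by simp
    rw [h6]
    linarith
  set h : ℝ → ℂ := fun s => ∫ t in (0:ℝ)..s, φ t with hh
  have hab : ∀ s : ℝ, 0 ≤ s → s ≤ T → ∀ t ∈ uIcc 0 s, |t| < r := by
    intro s hs0 hsT t ht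
    rw [uIcc_of_le hs0] at ht
    rw [abs_of_nonneg ht.1]
    linarith [ht.2]
  have hint : ∀ s : ℝ, 0 ≤ s → s ≤ T → IntervalIntegrable φ volume 0 s := by
    intro s hs0 hsT
    apply ContinuousOn.intervalIntegrable
    intro t ht
    exact (hφc t (hab s hs0 hsT t ht)).continuousWithinAt
  have hder : ∀ s : ℝ, 0 ≤ s → s ≤ T → HasDerivAt h (φ s) s := by
    intro s hs0 hsT
    have hsr : |s| < r := hab s hs0 hsT s right_mem_uIcc
    refine intervalIntegral.integral_hasDerivAt_right (hint s hs0 hsT) ?_ (hφc s hsr)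
    refine ContinuousOn.stronglyMeasurableAtFilter (s := {t : ℝ | |t| < r}) ?_ ?_ s hsr
    · exact isOpen_lt continuous_abs continuous_const
    · intro t ht
      exact (hφc t ht).continuousWithinAt
  -- g (γ s) = g x * exp (h s)
  have hgx : ∀ s ∈ Icc (0:ℝ) T, g (γ s) = g x * Complex.exp (h s) := by
    have hF : ∀ s ∈ Icc (0:ℝ) T, g (γ s) * Complex.exp (-h s) =
        g (γ 0) * Complex.exp (-h 0) := by
      have hd : ∀ s : ℝ, 0 ≤ s → s ≤ T →
          HasDerivAt (fun s => g (γ s) * Complex.exp (-h s)) 0 s := by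
        intro s hs0 hsT
        have hsr : |s| < r := hab s hs0 hsT s right_mem_uIcc
        have h1 := (hg _ (hγm s hsr)).2.1
        have h2 : HasDerivAt (fun s => g (γ s)) (g (γ s) * ℓ (γ s) * u) s :=
          h1.comp_of_eq s (hγd s) rfl
        have h3 : HasDerivAt (fun s => Complex.exp (-h s)) (Complex.exp (-h s) * (-φ s)) s :=
          (hder s hs0 hsT).neg.cexp
        have h4 := h2.mul h3
        refine h4.congr_deriv ?_
        simp only [hφ]
        ring
      intro s hs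
      exact constant_of_has_deriv_right_zero
        (f := fun s => g (γ s) * Complex.exp (-h s))
        (fun s hs => (hd s hs.1 hs.2).continuousAt.continuousWithinAt)
        (fun s hs => (hd s hs.1 hs.2.le).hasDerivWithinAt) s hs
    intro s hs
    have h1 := hF s hs
    have h2 : h 0 = 0 := by simp [hh]
    have h3 : γ 0 = x := by simp [hγ]
    rw [h2, h3, neg_zero, Complex.exp_zero, mul_one] at h1
    rw [← h1, mul_assoc, ← Complex.exp_add, neg_add_cancel, Complex.exp_zero, mul_one]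
  -- the imaginary part of h
  have him0 : (h 0).im = 0 := by simp [hh]
  have hcont : ContinuousOn (fun s => (h s).im) (Icc 0 T) := by
    intro s hs
    exact (Complex.continuous_im.continuousAt.comp (hder s hs.1 hs.2).continuousAt).continuousWithinAt
  have himT : 7 ≤ (h T).im := by
    have h1 : ∀ s ∈ Icc (0:ℝ) T, ‖ℓ₀‖ / 2 * s ≤ (h s).im := by
      have hmono : MonotoneOn (fun s => (h s).im - ‖ℓ₀‖ / 2 * s) (Icc 0 T) := by
        have hd : ∀ s : ℝ, 0 ≤ s → s ≤ T →
            HasDerivAt (fun s => (h s).im - ‖ℓ₀‖ / 2 * s) ((φ s).im - ‖ℓ₀‖ / 2) s := by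
          intro s hs0 hsT
          have h1 : HasDerivAt (fun s => (h s).im) ((φ s).im) s :=
            (Complex.imCLM.hasFDerivAt.comp_hasDerivAt s (hder s hs0 hsT))
          have h2 : HasDerivAt (fun s : ℝ => ‖ℓ₀‖ / 2 * s) (‖ℓ₀‖ / 2) s := by
            simpa using (hasDerivAt_id s).const_mul (‖ℓ₀‖ / 2)
          exact h1.sub h2
        refine monotoneOn_of_deriv_nonneg (convex_Icc 0 T) ?_ ?_ ?_
        · intro s hs
          exact (hd s hs.1 hs.2).continuousAt.continuousWithinAt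
        · intro s hs
          rw [interior_Icc] at hs
          exact (hd s hs.1.le hs.2.le).differentiableAt.differentiableWithinAt
        · intro s hs
          rw [interior_Icc] at hs
          rw [(hd s hs.1.le hs.2.le).deriv]
          have := hφim s (hab s hs.1.le hs.2.le s right_mem_uIcc)
          linarith
      intro s hs
      have h2 := hmono (left_mem_Icc.2 hT0.le) hs hs.1
      simp only [him0, mul_zero, sub_zero] at h2
      linarith
    have h2 := h1 T (right_mem_Icc.2 hT0.le)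
    have h3 : ‖ℓ₀‖ / 2 * T = 7 := by rw [hT]; field_simp; norm_num
    linarith
  -- the target
  have hx0 : g x ≠ 0 := (hg x (mem_ball_self (hT0.trans hr))).1
  set q : ℂ := g x / w with hq
  have hq0 : q ≠ 0 := div_ne_zero hx0 hw
  have hpi := Real.pi_lt_d2
  have hpi0 := Real.pi_pos
  obtain ⟨τ, hτ0, hτ7, m, hτ⟩ : ∃ τ : ℝ, 0 ≤ τ ∧ τ ≤ 7 ∧ ∃ m : ℤ, q.arg + τ = 2 * Real.pi * m := by
    have ha := Complex.arg_le_pi q
    have hb := Complex.neg_pi_lt_arg q
    rcases le_or_gt q.arg 0 with h1 | h1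
    · exact ⟨-q.arg, by linarith, by linarith, 0, by simp⟩
    · exact ⟨2 * Real.pi - q.arg, by linarith, by linarith, 1, by push_cast; ring⟩
  obtain ⟨s, hs, hsτ⟩ : ∃ s ∈ Icc (0:ℝ) T, (h s).im = τ := by
    have := intermediate_value_Icc hT0.le hcont
    obtain ⟨s, hs, h1⟩ := this (show τ ∈ Icc ((h 0).im) ((h T).im) from
      ⟨by rw [him0]; exact hτ0, hτ7.trans himT⟩)
    exact ⟨s, hs, h1⟩
  refine ⟨γ s, ?_, ‖q‖ * Real.exp (h s).re, by positivity, ?_⟩
  · rw [mem_closedBall, dist_eq_norm, hγ]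
    simp only [add_sub_cancel_left]
    rw [norm_mul, hun, mul_one, Complex.norm_real, Real.norm_eq_abs, abs_of_nonneg hs.1]
    exact hs.2
  · rw [hgx s hs]
    have h1 : g x = q * w := by rw [hq]; field_simp
    have h2 : q * Complex.exp (h s) = ‖q‖ * Real.exp (h s).re := by
      have h3 : q = ‖q‖ * Complex.exp (q.arg * Complex.I) := (Complex.norm_mul_exp_arg_mul_I q).symm
      have h4 : h s = (h s).re + (h s).im * Complex.I := (Complex.re_add_im _).symm
      rw [h4, hsτ, Complex.exp_add, Complex.ofReal_exp]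
      conv_lhs => rw [h3]
      have h5 : Complex.exp (q.arg * Complex.I) * Complex.exp (τ * Complex.I) = 1 := by
        rw [← Complex.exp_add, ← add_mul, ← Complex.ofReal_add, hτ]
        have : ((2 * Real.pi * m : ℝ) : ℂ) * Complex.I = m * (2 * Real.pi * Complex.I) := by
          push_cast; ring
        rw [this]
        exact Complex.exp_int_mul_two_pi_mul_I m
      calc (‖q‖ : ℂ) * Complex.exp (q.arg * Complex.I) *
            (Complex.exp ((h s).re : ℂ) * Complex.exp (τ * Complex.I))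
          = ‖q‖ * Complex.exp ((h s).re : ℂ) *
            (Complex.exp (q.arg * Complex.I) * Complex.exp (τ * Complex.I)) := by ring
        _ = _ := by rw [h5, mul_one]; simp
    rw [h1, mul_assoc, mul_comm w, ← mul_assoc, h2]
    push_cast
    ring

end Pool.Agent.TH363.CD
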