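import Mathlib
import Pool.Agent.TH363.CD.Base
import Pool.Agent.W747.MB.Defs
import Pool.Agent.W410.MB.ATT
import Pool.Agent.W366.MB.Der
import Pool.Agent.W108.MB.Var
import Pool.Agent.W613.MB.Stg
import Pool.Agent.W762.MB.PHS
import Pool.Agent.W12.MB.Low
import Pool.Agent.W216.MB.BAS

/-! One stage of the construction of attracting cycles of exact period `k + 1`. -/

set_option autoImplicit false
open Metric MeasureTheory Set Filter Topology

namespace Pool.Agent.TH363.CD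

open Pool.Agent.W747.MB

/-- The parameters for which `z ^ n + c` has an attracting cycle of exact period `m`. -/
def Ex (n m : ℕ) : Set ℂ :=
  {c | ∃ z, N62a1eb23.IsAttractingCycle (f n c) m z ∧ Function.minimalPeriod (f n c) z = m}

/-- A configuration, with control of all levels up to `j`. -/
structure Cf (n : ℕ) (c₀ : ℂ) (j : ℕ) (D : ℝ) : Prop where
  geo : Geo n c₀ j
  D1 : 1 ≤ D
  ph : ∀ c ∈ DD n c₀ j, ∀ i, 1 ≤ i → i ≤ j → PhAt n c i D
  far : ∀ c ∈ DD n c₀ j, ∀ i, 1 ≤ i → i ≤ j → 1 ≤ ‖X n c i‖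
  y1 : ∀ c ∈ DD n c₀ j, 1 ≤ Y n c

theorem hVar : P_VAR := Pool.Agent.W108.MB.main Pool.Agent.W366.MB.main

theorem hStg : P_STG := Pool.Agent.W613.MB.main hVar

theorem hPhs : P_PHS := Pool.Agent.W762.MB.main

/-- A criterion for an attracting cycle of exact period `j + 1`. -/
theorem att_exact {n : ℕ} (hn : 2 ≤ n) {c : ℂ} {j : ℕ} {D : ℝ} (hj : 1 ≤ j) (hY : 1 ≤ Y n c)
    (hD : 1 ≤ D) (hph : ∀ i, 1 ≤ i → i ≤ j → PhAt n c i D)
    (hfar : ∀ i, 1 ≤ i → i ≤ j → 1 ≤ ‖X n c i‖)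
    (hcr : Y n c * (‖A n c j‖ + 1 / (10 * n)) ^ (n - 1) ≤ 1 / (40 * D)) :
    c ∈ Ex n (j + 1) := by
  have hn0 : (0 : ℝ) < n := by
    have : 0 < n := by omega
    exact_mod_cast this
  have hD0 : 0 < D := by linarith
  have hYd : Y n c = n * ‖c‖ ^ (n - 1) := rfl
  have hc0 : 0 < ‖c‖ := by
    rcases (norm_nonneg c).lt_or_eq with h | h
    · exact h
    · rw [hYd, ← h, zero_pow (by omega)] at hY
      norm_num at hY
  set a := ‖A n c j‖ with ha
  have ha0 : 0 ≤ a := norm_nonneg _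
  set r : ℝ := ‖c‖ / (10 * n * D) with hr
  have hr0 : 0 < r := by positivity
  have hYpos : 0 < Y n c := by linarith
  have hdi : ∀ i, Differentiable ℂ (f n c)^[i] := Pool.Agent.W410.MB.ATT.diff_iter n c
  -- all iterates
  have hbd : ∀ z ∈ closedBall c r, ∀ i, 1 ≤ i → i ≤ j →
      ‖(f n c)^[i] z - c * A n c i‖ ≤ ‖c‖ / (10 * n) := by
    intro z hz i hi1 hi2
    have h1 := (convex_closedBall c r).norm_image_sub_le_of_norm_deriv_le
      (f := (f n c)^[i]) (C := D) (fun z _ => (hdi i) z)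
      (fun z hz => hph i hi1 hi2 z (by simpa [dist_eq_norm] using hz))
      (mem_closedBall_self hr0.le) hz
    rw [Pool.Agent.W410.MB.ATT.orbit hn] at h1
    refine h1.trans ?_
    have h2 : ‖z - c‖ ≤ r := by simpa [dist_eq_norm] using hz
    calc D * ‖z - c‖ ≤ D * r := by gcongr
      _ = ‖c‖ / (10 * n) := by rw [hr]; field_simp
  have hnorm : ∀ z ∈ closedBall c r, ‖(f n c)^[j] z‖ ≤ ‖c‖ * (a + 1 / (10 * n)) := by
    intro z hz
    have h1 := hbd z hz j hj le_rfl
    calc ‖(f n c)^[j] z‖ = ‖((f n c)^[j] z - c * A n c j) + c * A n c j‖ := by ring_nf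
      _ ≤ ‖(f n c)^[j] z - c * A n c j‖ + ‖c * A n c j‖ := norm_add_le _ _
      _ ≤ ‖c‖ / (10 * n) + ‖c‖ * a := by rw [norm_mul]; gcongr
      _ = _ := by ring
  have hder : ∀ z ∈ closedBall c r, ‖deriv (f n c)^[j + 1] z‖ ≤ 1 / 40 := by
    intro z hz
    have h1 : HasDerivAt (f n c)^[j + 1]
        (n * ((f n c)^[j] z) ^ (n - 1) * deriv (f n c)^[j] z) z := by
      rw [Function.iterate_succ']
      exact (Pool.Agent.H749R2.Hyp.hasDerivAt_f n c _).comp z
        ((hdi j) z).hasDerivAt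
    rw [h1.deriv, norm_mul, norm_mul, norm_pow, Complex.norm_natCast]
    have h2 : ‖deriv (f n c)^[j] z‖ ≤ D := hph j hj le_rfl z (by simpa [dist_eq_norm] using hz)
    have h3 := hnorm z hz
    calc (n : ℝ) * ‖(f n c)^[j] z‖ ^ (n - 1) * ‖deriv (f n c)^[j] z‖
        ≤ n * (‖c‖ * (a + 1 / (10 * n))) ^ (n - 1) * D := by gcongr
      _ = Y n c * (a + 1 / (10 * n)) ^ (n - 1) * D := by rw [hYd, mul_pow]; ring
      _ ≤ 1 / (40 * D) * D := by gcongr
      _ = 1 / 40 := by field_simp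
  have hpow : Y n c * a ^ (n - 1) ≤ 1 / (40 * D) := by
    refine le_trans ?_ hcr
    gcongr
    have : 0 ≤ 1 / (10 * (n : ℝ)) := by positivity
    linarith
  have ha1 : a ≤ 1 := by
    by_contra hlt
    push Not at hlt
    have h1 : 1 ≤ a ^ (n - 1) := one_le_pow₀ hlt.le
    have h2 : 1 / (40 * D) ≤ 1 / 40 := by
      apply one_div_le_one_div_of_le (by norm_num); linarith
    nlinarith
  have hcen : ‖(f n c)^[j + 1] c - c‖ ≤ r / 4 := by
    rw [Function.iterate_succ_apply', Pool.Agent.W410.MB.ATT.orbit hn]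
    simp only [f]
    rw [add_sub_cancel_right, norm_pow, norm_mul, mul_pow]
    have h2 : ‖c‖ ^ n = ‖c‖ * ‖c‖ ^ (n - 1) := by
      rw [← pow_succ']
      congr 1
      omega
    have h3 : a ^ n = a ^ (n - 1) * a := by
      rw [← pow_succ]
      congr 1
      omega
    calc ‖c‖ ^ n * a ^ n = ‖c‖ / n * (Y n c * a ^ (n - 1)) * a := by
          rw [h2, h3, hYd]; field_simp
      _ ≤ ‖c‖ / n * (1 / (40 * D)) * 1 := by gcongr
      _ = r / 4 := by rw [hr]; field_simp; norm_num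
  have hmaps : MapsTo (f n c)^[j + 1] (closedBall c r) (closedBall c r) := by
    intro z hz
    have h1 := (convex_closedBall c r).norm_image_sub_le_of_norm_deriv_le
      (f := (f n c)^[j + 1]) (C := 1 / 40) (fun z _ => (hdi (j + 1)) z)
      hder (mem_closedBall_self hr0.le) hz
    rw [mem_closedBall, dist_eq_norm]
    have h2 : ‖z - c‖ ≤ r := by simpa [dist_eq_norm] using hz
    calc ‖(f n c)^[j + 1] z - c‖
        = ‖((f n c)^[j + 1] z - (f n c)^[j + 1] c) + ((f n c)^[j + 1] c - c)‖ := by ring_nf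
      _ ≤ ‖(f n c)^[j + 1] z - (f n c)^[j + 1] c‖ + ‖(f n c)^[j + 1] c - c‖ := norm_add_le _ _
      _ ≤ 1 / 40 * ‖z - c‖ + r / 4 := add_le_add h1 hcen
      _ ≤ 1 / 40 * r + r / 4 := by gcongr
      _ ≤ r := by linarith
  obtain ⟨z, hz, hfix, hlt⟩ := Pool.Agent.H749R2.Hyp.fixed_of_contr (g := (f n c)^[j + 1])
    (c := c) (ρ := r) (q := 1 / 40) hr0.le (by norm_num) (by norm_num) (hdi (j + 1))
    hmaps hder
  refine ⟨z, ⟨Nat.succ_pos j, hfix, (hdi (j + 1)) z, hlt⟩, ?_⟩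
  -- exact period
  have hper : Function.IsPeriodicPt (f n c) (j + 1) z := hfix
  set p := Function.minimalPeriod (f n c) z with hp
  have hp0 : 0 < p := hper.minimalPeriod_pos (Nat.succ_pos j)
  have hple : p ≤ j + 1 := hper.minimalPeriod_le (Nat.succ_pos j)
  by_contra hne
  have hpj : p ≤ j := by omega
  have hfixp : (f n c)^[p] z = z := Function.iterate_minimalPeriod
  have h1 := hbd z hz p hp0 hpj
  have h2 := hfar p hp0 hpj
  have h3 : A n c p - 1 = X n c p / n := by unfold A; ring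
  have h4 : c * A n c p - c = c * X n c p / n := by
    have : c * A n c p - c = c * (A n c p - 1) := by ring
    rw [this, h3]; ring
  have h5 : ‖c * A n c p - c‖ = ‖c‖ * ‖X n c p‖ / n := by
    rw [h4, norm_div, norm_mul, Complex.norm_natCast]
  have h6 : ‖c‖ / n ≤ ‖c * A n c p - c‖ := by
    rw [h5]
    apply div_le_div_of_nonneg_right _ hn0.le
    nlinarith
  have h7 : ‖c * A n c p - c‖ ≤ ‖c‖ / (10 * n) + r := by
    have h8 : c * A n c p - c = -((f n c)^[p] z - c * A n c p) + (z - c) := by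
      rw [hfixp]; ring
    rw [h8]
    refine (norm_add_le _ _).trans ?_
    rw [norm_neg]
    have h9 : ‖z - c‖ ≤ r := by simpa [dist_eq_norm] using hz
    linarith
  have h8 : r ≤ ‖c‖ / (10 * n) := by
    rw [hr]
    apply div_le_div_of_nonneg_left hc0.le (by positivity)
    nlinarith
  have h9 : ‖c‖ / (10 * n) = (‖c‖ / n) / 10 := by field_simp
  have h10 : 0 < ‖c‖ / n := by positivity
  linarith

theorem exp_big {R : ℝ} (hR : 1000 ≤ R) : 100 * R ≤ Real.exp (R / 2) := by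
  have h1 := Real.quadratic_le_exp_of_nonneg (x := R / 2) (by linarith)
  nlinarith

theorem exp_huge {R : ℝ} (hR : (10:ℝ) ^ 20 ≤ R) : (10:ℝ) ^ 20 ≤ Real.exp (R / 2) := by
  have := exp_big (R := R) (by linarith [show (1000:ℝ) ≤ 10 ^ 20 by norm_num])
  linarith

theorem logD_le {D R : ℝ} (hR : (10:ℝ) ^ 20 ≤ R) (hlog : Real.log D ^ 4 ≤ R) :
    Real.log D ≤ R / 1000 := by
  by_contra h
  push Not at h
  have h0 : (0:ℝ) ≤ R / 1000 := by linarith [show (0:ℝ) ≤ 10 ^ 20 by norm_num]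
  have h1 : (R / 1000) ^ 4 ≤ Real.log D ^ 4 := pow_le_pow_left₀ h0 h.le 4
  have h2 : (R / 1000) ^ 4 = R * (R ^ 3 / 10 ^ 12) := by ring
  have h3 : ((10:ℝ) ^ 20) ^ 3 ≤ R ^ 3 := pow_le_pow_left₀ (by norm_num) hR 3
  have h4 : (2:ℝ) ≤ R ^ 3 / 10 ^ 12 := by
    rw [le_div_iff₀ (by norm_num)]
    refine le_trans ?_ h3
    norm_num
  have h5 : (0:ℝ) < R := lt_of_lt_of_le (by norm_num) hR
  nlinarith

/-- The last level: the whole disc consists of parameters with an attracting cycle of exact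
period `k + 1`. -/
theorem last {n : ℕ} (hn : 10 ^ 6 ≤ n) {c₀ : ℂ} {k : ℕ} {D R : ℝ} (cf : Cf n c₀ k D)
    (hX : X n c₀ k = -(R : ℂ)) (hR : 10 ^ 20 ≤ R) (hRn : R ≤ n / 10) (hlog : Real.log D ^ 4 ≤ R)
    (hY : Y n c₀ ≤ 2 * R) : DD n c₀ k ⊆ Ex n (k + 1) := by
  intro c hc
  have hn' : (10:ℝ) ^ 6 ≤ n := by exact_mod_cast hn
  have hn0 : (0:ℝ) < n := by linarith
  have hn2 : 2 ≤ n := le_trans (by norm_num) hn
  have hR0 : 0 < R := lt_of_lt_of_le (by norm_num) hR
  have hD0 : 0 < D := by linarith [cf.D1]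
  obtain ⟨v1, v2, v3⟩ := hVar n hn2 c₀ k cf.geo c hc
  have hnX : ‖X n c₀ k‖ = R := by
    rw [hX, norm_neg, Complex.norm_real, Real.norm_eq_abs, abs_of_pos hR0]
  rw [hnX] at v2
  have hY1 := cf.y1 c hc
  have hY2 : Y n c ≤ 3 * R := by
    have := abs_le.1 v3
    linarith [this.2]
  refine att_exact hn2 cf.geo.j1 hY1 cf.D1 (cf.ph c hc) (cf.far c hc) ?_
  have hA : ‖A n c k‖ ≤ 1 - 98 / 100 * R / n := by
    have h1 : A n c k = ((1 - R / n : ℝ) : ℂ) + (X n c k - X n c₀ k) / n := by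
      unfold A
      rw [hX]
      push_cast
      field_simp
      ring
    rw [h1]
    refine (norm_add_le _ _).trans ?_
    rw [Complex.norm_real, Real.norm_eq_abs, norm_div, Complex.norm_natCast]
    have h2 : R / n ≤ 1 / 10 := by
      rw [div_le_iff₀ hn0]; linarith
    rw [abs_of_nonneg (by linarith)]
    have h3 : ‖X n c k - X n c₀ k‖ / n ≤ R / 50 / n := by gcongr
    have h4 : R / 50 / n = (R / n) / 50 := by ring
    have h5 : 98 / 100 * R / n = 98 / 100 * (R / n) := by ring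
    rw [h5]
    linarith
  have hcast : ((n - 1 : ℕ) : ℝ) = n - 1 := by
    rw [Nat.cast_sub (by omega)]
    simp
  have hRn2 : R / n ≤ 1 / 10 := by
    rw [div_le_iff₀ hn0]; linarith
  have hbase : ‖A n c k‖ + 1 / (10 * n) ≤ Real.exp (-(97 / 100 * R / n)) := by
    have h1 := Real.add_one_le_exp (-(97 / 100 * R / n))
    have h2 : 1 / (10 * (n:ℝ)) ≤ 1 / 100 * R / n := by
      rw [show 1 / (10 * (n:ℝ)) = (1 / 10) / n by field_simp]
      gcongr
      linarith [show (10:ℝ) ^ 20 ≥ 10 by norm_num]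
    have h3 : 98 / 100 * R / n = 97 / 100 * R / n + 1 / 100 * R / n := by ring
    linarith
  have hpow : (‖A n c k‖ + 1 / (10 * n)) ^ (n - 1) ≤ Real.exp (-(9 / 10 * R)) := by
    have h0 : 0 ≤ ‖A n c k‖ + 1 / (10 * (n:ℝ)) := by positivity
    calc (‖A n c k‖ + 1 / (10 * n)) ^ (n - 1) ≤ (Real.exp (-(97 / 100 * R / n))) ^ (n - 1) :=
          pow_le_pow_left₀ h0 hbase _
      _ = Real.exp (((n:ℝ) - 1) * -(97 / 100 * R / n)) := by
          rw [← Real.exp_nat_mul, hcast]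
      _ ≤ Real.exp (-(9 / 10 * R)) := by
          apply Real.exp_le_exp.2
          have h1 : ((n:ℝ) - 1) * -(97 / 100 * R / n) = -(97 / 100 * R) + 97 / 100 * (R / n) := by
            field_simp
            ring
          rw [h1]
          nlinarith
  have h100 := exp_big (R := R) (by linarith [show (1000:ℝ) ≤ 10 ^ 20 by norm_num])
  have hlD := logD_le hR hlog
  have hDe : D ≤ Real.exp (R / 1000) := by
    rw [← Real.log_le_iff_le_exp hD0]
    exact hlD
  rw [le_div_iff₀ (by positivity)]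
  calc Y n c * (‖A n c k‖ + 1 / (10 * n)) ^ (n - 1) * (40 * D)
      ≤ (3 * R) * Real.exp (-(9 / 10 * R)) * (40 * Real.exp (R / 1000)) := by gcongr
    _ = (120 * R) * (Real.exp (-(9 / 10 * R)) * Real.exp (R / 1000)) := by ring
    _ = (120 * R) * Real.exp (-(9 / 10 * R) + R / 1000) := by rw [Real.exp_add]
    _ ≤ (2 * Real.exp (R / 2)) * Real.exp (-(9 / 10 * R) + R / 1000) := by
        apply mul_le_mul_of_nonneg_right _ (Real.exp_pos _).le
        linarith
    _ = 2 * Real.exp (R / 2 + (-(9 / 10 * R) + R / 1000)) := by rw [Real.exp_add (R/2)]; ring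
    _ ≤ 2 * Real.exp (-1) := by
        gcongr
        linarith [show (10:ℝ) ^ 20 ≥ 10 by norm_num]
    _ ≤ 1 := by
        have h1 : (2:ℝ) ≤ Real.exp 1 := by
          have := Real.add_one_le_exp (1:ℝ); linarith
        rw [Real.exp_neg, mul_inv_le_iff₀ (Real.exp_pos 1)]
        linarith

end Pool.Agent.TH363.CD
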