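import Mathlib
import Pool.Agent.TH363.CD.Stage
import Pool.Agent.W216.MB.ALV
import Pool.Agent.W12.MB.Low

/-! Parameters without attracting cycles of small period: bounds. The proofs follow the files
`W410.MB.ATT`, `W216.MB.ALV` and `W12.MB.Low` of the project on the area `C / n`. -/

set_option autoImplicit false
open Metric MeasureTheory Set

namespace Pool.Agent.TH363.CD

open Pool.Agent.W747.MB

/-- A criterion for an attracting periodic point of period `j + 1` (after `W410.MB.ATT`). -/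
theorem att' {n : ℕ} (hn : 2 ≤ n) {c : ℂ} {j : ℕ} {D : ℝ} (hY : 1 / 4 ≤ Y n c) (hD : 1 ≤ D)
    (hph : PhAt n c j D)
    (hcr : Y n c * (‖A n c j‖ + 1 / (10 * n)) ^ (n - 1) ≤ 1 / (40 * D)) :
    ∃ z, N62a1eb23.IsAttractingCycle (f n c) (j + 1) z := by
  have hn0 : (0 : ℝ) < n := by
    have : 0 < n := by omega
    exact_mod_cast this
  have hD0 : 0 < D := by linarith
  have hYd : Y n c = n * ‖c‖ ^ (n - 1) := rfl
  have hc0 : 0 < ‖c‖ := by
    rcases (norm_nonneg c).lt_or_eq with h | h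
    · exact h
    · rw [hYd, ← h, zero_pow (by omega)] at hY
      norm_num at hY
  set a := ‖A n c j‖ with ha
  have ha0 : 0 ≤ a := norm_nonneg _
  set r : ℝ := ‖c‖ / (10 * n * D) with hr
  have hr0 : 0 < r := by positivity
  have hYpos : 0 < Y n c := by linarith
  -- derivative of the j+1-st iterate
  have hbd : ∀ z ∈ closedBall c r, ‖(f n c)^[j] z - c * A n c j‖ ≤ ‖c‖ / (10 * n) := by
    intro z hz
    have h1 := (convex_closedBall c r).norm_image_sub_le_of_norm_deriv_le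
      (f := (f n c)^[j]) (C := D) (fun z _ => (Pool.Agent.W410.MB.ATT.diff_iter n c j) z)
      (fun z hz => hph z (by simpa [dist_eq_norm] using hz)) (mem_closedBall_self hr0.le) hz
    rw [Pool.Agent.W410.MB.ATT.orbit hn] at h1
    refine h1.trans ?_
    have h2 : ‖z - c‖ ≤ r := by simpa [dist_eq_norm] using hz
    calc D * ‖z - c‖ ≤ D * r := by gcongr
      _ = ‖c‖ / (10 * n) := by rw [hr]; field_simp
  have hnorm : ∀ z ∈ closedBall c r, ‖(f n c)^[j] z‖ ≤ ‖c‖ * (a + 1 / (10 * n)) := by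
    intro z hz
    have h1 := hbd z hz
    calc ‖(f n c)^[j] z‖ = ‖((f n c)^[j] z - c * A n c j) + c * A n c j‖ := by ring_nf
      _ ≤ ‖(f n c)^[j] z - c * A n c j‖ + ‖c * A n c j‖ := norm_add_le _ _
      _ ≤ ‖c‖ / (10 * n) + ‖c‖ * a := by rw [norm_mul]; gcongr
      _ = _ := by ring
  have hder : ∀ z ∈ closedBall c r, ‖deriv (f n c)^[j + 1] z‖ ≤ 1 / 40 := by
    intro z hz
    have h1 : HasDerivAt (f n c)^[j + 1]
        (n * ((f n c)^[j] z) ^ (n - 1) * deriv (f n c)^[j] z) z := by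
      rw [Function.iterate_succ']
      exact (Pool.Agent.H749R2.Hyp.hasDerivAt_f n c _).comp z
        ((Pool.Agent.W410.MB.ATT.diff_iter n c j) z).hasDerivAt
    rw [h1.deriv, norm_mul, norm_mul, norm_pow, Complex.norm_natCast]
    have h2 : ‖deriv (f n c)^[j] z‖ ≤ D := hph z (by simpa [dist_eq_norm] using hz)
    have h3 := hnorm z hz
    calc (n : ℝ) * ‖(f n c)^[j] z‖ ^ (n - 1) * ‖deriv (f n c)^[j] z‖
        ≤ n * (‖c‖ * (a + 1 / (10 * n))) ^ (n - 1) * D := by gcongr
      _ = Y n c * (a + 1 / (10 * n)) ^ (n - 1) * D := by rw [hYd, mul_pow]; ring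
      _ ≤ 1 / (40 * D) * D := by gcongr
      _ = 1 / 40 := by field_simp
  -- |A_j| ≤ 1
  have hpow : Y n c * a ^ (n - 1) ≤ 1 / (40 * D) := by
    refine le_trans ?_ hcr
    gcongr
    have : 0 ≤ 1 / (10 * (n : ℝ)) := by positivity
    linarith
  have ha1 : a ≤ 1 := by
    by_contra hlt
    push Not at hlt
    have h1 : 1 ≤ a ^ (n - 1) := one_le_pow₀ hlt.le
    have h2 : 1 / (40 * D) ≤ 1 / 40 := by
      apply one_div_le_one_div_of_le (by norm_num); linarith
    nlinarith
  have hcen : ‖(f n c)^[j + 1] c - c‖ ≤ r / 4 := by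
    rw [Function.iterate_succ_apply', Pool.Agent.W410.MB.ATT.orbit hn]
    simp only [f]
    rw [add_sub_cancel_right, norm_pow, norm_mul, mul_pow]
    have h2 : ‖c‖ ^ n = ‖c‖ * ‖c‖ ^ (n - 1) := by
      rw [← pow_succ']
      congr 1
      omega
    have h3 : a ^ n = a ^ (n - 1) * a := by
      rw [← pow_succ]
      congr 1
      omega
    calc ‖c‖ ^ n * a ^ n = ‖c‖ / n * (Y n c * a ^ (n - 1)) * a := by
          rw [h2, h3, hYd]; field_simp
      _ ≤ ‖c‖ / n * (1 / (40 * D)) * 1 := by gcongr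
      _ = r / 4 := by rw [hr]; field_simp; norm_num
  have hmaps : MapsTo (f n c)^[j + 1] (closedBall c r) (closedBall c r) := by
    intro z hz
    have h1 := (convex_closedBall c r).norm_image_sub_le_of_norm_deriv_le
      (f := (f n c)^[j + 1]) (C := 1 / 40) (fun z _ => (Pool.Agent.W410.MB.ATT.diff_iter n c (j + 1)) z)
      hder (mem_closedBall_self hr0.le) hz
    rw [mem_closedBall, dist_eq_norm]
    have h2 : ‖z - c‖ ≤ r := by simpa [dist_eq_norm] using hz
    calc ‖(f n c)^[j + 1] z - c‖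
        = ‖((f n c)^[j + 1] z - (f n c)^[j + 1] c) + ((f n c)^[j + 1] c - c)‖ := by ring_nf
      _ ≤ ‖(f n c)^[j + 1] z - (f n c)^[j + 1] c‖ + ‖(f n c)^[j + 1] c - c‖ := norm_add_le _ _
      _ ≤ 1 / 40 * ‖z - c‖ + r / 4 := add_le_add h1 hcen
      _ ≤ 1 / 40 * r + r / 4 := by gcongr
      _ ≤ r := by linarith
  obtain ⟨z, hz, hfix, hlt⟩ := Pool.Agent.H749R2.Hyp.fixed_of_contr (g := (f n c)^[j + 1])
    (c := c) (ρ := r) (q := 1 / 40) hr0.le (by norm_num) (by norm_num) (Pool.Agent.W410.MB.ATT.diff_iter n c (j + 1))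
    hmaps hder
  exact ⟨z, Nat.succ_pos j, hfix, (Pool.Agent.W410.MB.ATT.diff_iter n c (j + 1)) z, hlt⟩


/-- Bounds on the Multibrot set, outside the main component (after `W216.MB.ALV`). -/
theorem alv' {n : ℕ} (hn : 10 ^ 6 ≤ n) {c : ℂ} (hcM : c ∈ N62a1eb23.multibrotSet n)
    (hcH : ¬ ∃ z, N62a1eb23.IsAttractingCycle (f n c) 1 z) :
    1 / 3 ≤ Y n c ∧ Y n c ≤ 2 * n ∧ ∀ j, ‖X n c j‖ ≤ 3 * n := by
  have hn2 : 2 ≤ n := le_trans (by norm_num) hn
  have hn20 : 20 ≤ n := le_trans (by norm_num) hn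
  have hnR : (0 : ℝ) < n := by
    have : 0 < n := by omega
    exact_mod_cast this
  have hY1 : 1 / 3 ≤ Y n c := by
    by_contra hcon
    push Not at hcon
    apply hcH
    obtain ⟨z, hz⟩ := Pool.Agent.H749R2.Hyp.P1 hn2 (c := c) (by
      have h1 : (n : ℝ) * ‖c‖ ^ (n - 1) < 1 / 3 := hcon
      have h2 : Real.exp 1 < 3 := by
        have := Real.exp_one_lt_d9
        linarith
      have h3 : (0 : ℝ) ≤ n * ‖c‖ ^ (n - 1) := by positivity
      nlinarith [Real.exp_pos 1])
    exact ⟨z, hz⟩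
  have ht := Pool.Agent.H749R2.Hyp.t_le_two hn2 hcM
  have hY2 : Y n c ≤ 2 * n := by
    unfold Y
    nlinarith
  refine ⟨hY1, hY2, ?_⟩
  have hz : ∀ j, ‖c * A n c j‖ ^ (n - 1) ≤ 2 := by
    intro j
    by_contra hcon
    push Not at hcon
    rcases le_or_gt ‖c‖ ‖c * A n c j‖ with h1 | h1
    · exact Pool.Agent.H749R2.Hyp.not_mem_of_gt hn2 (Pool.Agent.W216.MB.ALV.iter_eq n hn2 c j) h1 hcon hcM
    · have h2 : ‖c * A n c j‖ ^ (n - 1) ≤ ‖c‖ ^ (n - 1) :=
        pow_le_pow_left₀ (norm_nonneg _) h1.le _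
      linarith
  have hA : ∀ j, ‖A n c j‖ ≤ 3 / 2 := by
    intro j
    by_contra hcon
    push Not at hcon
    have h1 : (3 / 2 : ℝ) ^ (n - 1) < ‖A n c j‖ ^ (n - 1) :=
      pow_lt_pow_left₀ hcon (by norm_num) (by omega)
    have h2 := Pool.Agent.W216.MB.ALV.pow_big n hn20
    have h3 := hz j
    rw [norm_mul, mul_pow] at h3
    have h4 : (1 : ℝ) / 3 ≤ n * ‖c‖ ^ (n - 1) := hY1
    have h5 : 0 ≤ ‖A n c j‖ ^ (n - 1) := by positivity
    have h6 : 1 / 3 * ‖A n c j‖ ^ (n - 1) ≤ n * ‖c‖ ^ (n - 1) * ‖A n c j‖ ^ (n - 1) :=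
      mul_le_mul_of_nonneg_right h4 h5
    have h7 : (n : ℝ) * (‖c‖ ^ (n - 1) * ‖A n c j‖ ^ (n - 1)) ≤ n * 2 :=
      mul_le_mul_of_nonneg_left h3 hnR.le
    linarith
  intro j
  cases j with
  | zero =>
    simp [X]
  | succ j =>
    have h1 : X n c (j + 1) = n * c ^ (n - 1) * A n c j ^ n := rfl
    have h2 : ‖X n c (j + 1)‖ = n * ‖c * A n c j‖ ^ (n - 1) * ‖A n c j‖ := by
      rw [h1, norm_mul, norm_mul, norm_pow, norm_pow, Complex.norm_natCast, norm_mul, mul_pow]
      have : ‖A n c j‖ ^ n = ‖A n c j‖ ^ (n - 1) * ‖A n c j‖ := by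
        rw [← pow_succ]
        congr 1
        omega
      rw [this]
      ring
    rw [h2]
    have h3 := hz j
    have h4 := hA j
    calc (n : ℝ) * ‖c * A n c j‖ ^ (n - 1) * ‖A n c j‖ ≤ n * 2 * (3 / 2) := by gcongr
      _ = 3 * n := by ring


/-- At a parameter without attracting periodic point of period `j + 1` (after `W12.MB`). -/
theorem low' {n : ℕ} (hn : 10 ^ 6 ≤ n) {c : ℂ} {j : ℕ} {D : ℝ} (hY1 : 1 / 3 ≤ Y n c)
    (hY2 : Y n c ≤ 2 * n) (hX : ∀ j, ‖X n c j‖ ≤ 3 * n)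
    (hnot : ¬ ∃ z, N62a1eb23.IsAttractingCycle (f n c) (j + 1) z) (hD : 1 ≤ D)
    (hPh : PhAt n c j D) (hlog : Real.log D ^ 4 ≤ 3 * n) :
    98 / 100 ≤ ‖A n c j‖ ∧ ‖A n c j‖ ≤ 101 / 100 ∧
      -(4 + Real.log D) ≤ Real.log ‖X n c (j + 1)‖ := by
  have hn' : (10 : ℝ) ^ 6 ≤ n := by exact_mod_cast hn
  have hn0 : (0 : ℝ) < n := by linarith
  have hcast : ((n - 1 : ℕ) : ℝ) = n - 1 := by
    rw [Nat.cast_sub (by omega)]
    simp
  obtain ⟨a, ha⟩ : ∃ a, a = ‖A n c j‖ := ⟨_, rfl⟩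
  have ha0 : 0 ≤ a := by rw [ha]; exact norm_nonneg _
  have hX1 := Pool.Agent.W12.MB.norm_X n c j
  rw [← ha] at hX1 ⊢
  have hD0 : 0 < D := by linarith
  have h1 : 1 / (40 * D) < Y n c * (a + 1 / (10 * n)) ^ (n - 1) := by
    by_contra h
    push Not at h
    rw [ha] at h
    exact hnot (att' (by omega) (by linarith) hD hPh h)
  have hl := Pool.Agent.W12.MB.log_small hn hlog
  have hl0 : 0 ≤ Real.log D := Real.log_nonneg hD
  have h80 := Pool.Agent.W12.MB.log80 hn
  have hsmall : 1 / (10 * (n : ℝ)) ≤ 1 / 10 ^ 7 := by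
    apply one_div_le_one_div_of_le (by norm_num)
    linarith
  have hlow : 98 / 100 ≤ a := by
    by_contra hne
    push Not at hne
    have h2 : a + 1 / (10 * (n : ℝ)) ≤ 981 / 1000 := by
      have : (98 : ℝ) / 100 + 1 / 10 ^ 7 ≤ 981 / 1000 := by norm_num
      linarith
    have h3 : (a + 1 / (10 * (n : ℝ))) ^ (n - 1) ≤ Real.exp (-(19 / 1000) * (n - 1)) := by
      calc (a + 1 / (10 * (n : ℝ))) ^ (n - 1) ≤ (Real.exp (-(19 / 1000))) ^ (n - 1) := by
            apply pow_le_pow_left₀ (by positivity)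
            have := Real.add_one_le_exp (-(19 / 1000) : ℝ)
            linarith
        _ = _ := by
            rw [← Real.exp_nat_mul, hcast]
            ring_nf
    have h4 : 1 / (40 * D) < 2 * n * Real.exp (-(19 / 1000) * (n - 1)) := by
      refine h1.trans_le ?_
      exact mul_le_mul hY2 h3 (by positivity) (by positivity)
    have h5 : 1 < Real.exp (Real.log (80 * n) + Real.log D + (-(19 / 1000) * (n - 1))) := by
      rw [Real.exp_add, Real.exp_add, Real.exp_log (by positivity), Real.exp_log hD0]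
      rw [div_lt_iff₀ (by positivity)] at h4
      linarith
    have h6 : 0 < Real.log (80 * n) + Real.log D + (-(19 / 1000) * (n - 1)) := by
      exact Real.exp_lt_exp.mp (by rw [Real.exp_zero]; exact h5)
    linarith
  refine ⟨hlow, ?_, ?_⟩
  · -- upper bound
    by_contra hne
    push Not at hne
    have h2 : Y n c * a ^ n ≤ 3 * n := by rw [← hX1]; exact hX (j + 1)
    have h3 : a ^ n ≤ 9 * n := by
      have h4 : (1 / 3) * a ^ n ≤ Y n c * a ^ n := mul_le_mul_of_nonneg_right hY1 (by positivity)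
      linarith
    obtain ⟨m, hm⟩ : ∃ m, m = n / 2 := ⟨_, rfl⟩
    have hm2 : 2 * m ≤ n := by omega
    have hm3 : n ≤ 2 * m + 1 := by omega
    have h4 : (1 + (m : ℝ) * (1 / 100)) ≤ (101 / 100 : ℝ) ^ m := by
      have := one_add_mul_le_pow (show (-2 : ℝ) ≤ 1 / 100 by norm_num) m
      have e : (1 : ℝ) + 1 / 100 = 101 / 100 := by norm_num
      rwa [e] at this
    have h5 : (101 / 100 : ℝ) ^ (2 * m) ≤ a ^ n := by
      calc (101 / 100 : ℝ) ^ (2 * m) ≤ (101 / 100 : ℝ) ^ n := pow_le_pow_right₀ (by norm_num) hm2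
        _ ≤ a ^ n := pow_le_pow_left₀ (by norm_num) hne.le n
    have h6 : (1 + (m : ℝ) * (1 / 100)) ^ 2 ≤ (101 / 100 : ℝ) ^ (2 * m) := by
      rw [mul_comm 2 m, pow_mul]
      exact pow_le_pow_left₀ (by positivity) h4 2
    have h7 : (n : ℝ) ≤ 2 * m + 1 := by exact_mod_cast hm3
    nlinarith
  · -- lower bound for `X`
    rw [hX1]
    have ha1 : 0 < a := by linarith
    have hYpos : 0 < Y n c := by linarith
    have h2 : a + 1 / (10 * (n : ℝ)) = a * (1 + 1 / (10 * n * a)) := by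
      field_simp
    have h3 : (1 + 1 / (10 * (n : ℝ) * a)) ^ (n - 1) ≤ Real.exp (103 / 1000) := by
      calc (1 + 1 / (10 * (n : ℝ) * a)) ^ (n - 1) ≤ (Real.exp (1 / (10 * (n : ℝ) * a))) ^ (n - 1) := by
            apply pow_le_pow_left₀ (by positivity)
            have := Real.add_one_le_exp (1 / (10 * (n : ℝ) * a))
            linarith
        _ = Real.exp (((n : ℝ) - 1) * (1 / (10 * (n : ℝ) * a))) := by
            rw [← Real.exp_nat_mul, hcast]
        _ ≤ Real.exp (103 / 1000) := by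
            apply Real.exp_le_exp.mpr
            rw [mul_one_div, div_le_iff₀ (by positivity)]
            nlinarith
    have h4 : 1 / (40 * D) < Y n c * (a ^ (n - 1) * Real.exp (103 / 1000)) := by
      refine h1.trans_le ?_
      rw [h2, mul_pow]
      apply mul_le_mul_of_nonneg_left _ hYpos.le
      exact mul_le_mul_of_nonneg_left h3 (by positivity)
    have h5 : a ^ n = a ^ (n - 1) * a := by
      rw [← pow_succ]
      congr 1
      omega
    have h6 : Real.exp (-(4 + Real.log D)) ≤ Y n c * a ^ n := by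
      rw [neg_add, Real.exp_add, Real.exp_neg (Real.log D), Real.exp_log hD0, h5]
      have h7 : 1 / (40 * D) * Real.exp (-(103 / 1000)) ≤ Y n c * a ^ (n - 1) := by
        have := mul_le_mul_of_nonneg_right h4.le (Real.exp_pos (-(103 / 1000))).le
        refine this.trans (le_of_eq ?_)
        rw [mul_assoc, mul_assoc, ← Real.exp_add, add_neg_cancel, Real.exp_zero, mul_one]
      have h8 : (897 : ℝ) / 1000 ≤ Real.exp (-(103 / 1000)) := by
        have := Real.add_one_le_exp (-(103 / 1000) : ℝ)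
        linarith
      have h9 : Real.exp (-4) ≤ 1 / 50 := by
        rw [Real.exp_neg, ← one_div]
        apply one_div_le_one_div_of_le (by norm_num)
        have e : Real.exp 4 = Real.exp 1 ^ 4 := by
          rw [← Real.exp_nat_mul]
          norm_num
        rw [e]
        have := Real.exp_one_gt_d9
        calc (50 : ℝ) ≤ 2.7182818283 ^ 4 := by norm_num
          _ ≤ Real.exp 1 ^ 4 := pow_le_pow_left₀ (by norm_num) this.le 4
      calc Real.exp (-4) * D⁻¹ ≤ 1 / 50 * D⁻¹ := mul_le_mul_of_nonneg_right h9 (by positivity)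
        _ ≤ (1 / (40 * D) * (897 / 1000)) * (98 / 100) := by
            rw [one_div_mul_eq_div, one_div_mul_eq_div]
            field_simp
            norm_num
        _ ≤ (1 / (40 * D) * Real.exp (-(103 / 1000))) * a := by
            apply mul_le_mul _ hlow (by norm_num) (by positivity)
            exact mul_le_mul_of_nonneg_left h8 (by positivity)
        _ ≤ (Y n c * a ^ (n - 1)) * a := mul_le_mul_of_nonneg_right h7 ha0
        _ = Y n c * (a ^ (n - 1) * a) := by ring
    have h10 := Real.log_le_log (Real.exp_pos _) h6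
    rwa [Real.log_exp] at h10


end Pool.Agent.TH363.CD
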