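import Mathlib
import Pool.Agent.TH363.CD.Stage
import Pool.Agent.W747.MB.Rec

/-! One stage of the construction: from level `j` to level `j + 1`. -/

set_option autoImplicit false
open Metric MeasureTheory Set Filter Topology

namespace Pool.Agent.TH363.CD

open Pool.Agent.W747.MB

theorem prod_est {a b a₀ b₀ A : ℂ} {R l : ℝ} (hR : 0 ≤ R) (hl : 0 ≤ l) (ha : ‖a - a₀‖ ≤ R / 50)
    (ha0 : ‖a₀‖ = R) (hb : ‖b - b₀‖ ≤ l / 50) (hb0 : ‖b₀‖ = l) (hA : ‖A - 1‖ ≤ 102 / 1000) :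
    ‖a * b / A - a₀ * b₀‖ ≤ 19 / 100 * (R * l) := by
  have hA1 : 898 / 1000 ≤ ‖A‖ := by
    have h1 : (1:ℝ) ≤ ‖A‖ + ‖A - 1‖ := by
      calc (1:ℝ) = ‖A - (A - 1)‖ := by simp
        _ ≤ _ := norm_sub_le _ _
    linarith
  have hA0 : A ≠ 0 := by
    rintro rfl
    rw [norm_zero] at hA1
    norm_num at hA1
  have h1 : a * b / A - a₀ * b₀ = (a * (b - b₀) + (a - a₀) * b₀ - a₀ * b₀ * (A - 1)) / A := by
    field_simp
    ring
  have ha1 : ‖a‖ ≤ 51 / 50 * R := by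
    have h2 : ‖a‖ ≤ ‖a₀‖ + ‖a - a₀‖ := by
      calc ‖a‖ = ‖a₀ + (a - a₀)‖ := by congr 1; ring
        _ ≤ _ := norm_add_le _ _
    linarith
  have h2 : ‖a * (b - b₀) + (a - a₀) * b₀ - a₀ * b₀ * (A - 1)‖ ≤
      (51 / 50 * R) * (l / 50) + (R / 50) * l + R * l * (102 / 1000) := by
    refine (norm_sub_le _ _).trans (add_le_add ((norm_add_le _ _).trans (add_le_add ?_ ?_)) ?_)
    · rw [norm_mul]; gcongr
    · rw [norm_mul, hb0]; gcongr
    · rw [norm_mul, norm_mul, ha0, hb0]; gcongr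
  rw [h1, norm_div, div_le_iff₀ (by linarith)]
  refine h2.trans ?_
  have h3 : 0 ≤ R * l := mul_nonneg hR hl
  nlinarith

theorem PhAt.mono {n : ℕ} {c : ℂ} {j : ℕ} {D D' : ℝ} (hn : 0 < n) (h : PhAt n c j D)
    (hD : 0 < D) (hDD : D ≤ D') : PhAt n c j D' := by
  intro z hz
  have hn' : (0:ℝ) < n := by exact_mod_cast hn
  refine (h z (hz.trans ?_)).trans hDD
  apply div_le_div_of_nonneg_left (norm_nonneg _) (by positivity)
  gcongr

theorem Lnext {n : ℕ} (hn : 10 ^ 6 ≤ n) {c₀ : ℂ} {j : ℕ} {D R : ℝ} (cf : Cf n c₀ j D)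
    (hX : ‖X n c₀ j‖ = R) (hR : 10 ^ 20 ≤ R) (hRn : R ≤ n / 10) {c : ℂ} (hc : c ∈ DD n c₀ j) :
    ‖A n c j - 1‖ ≤ 102 / 1000 ∧
    ‖L n c (j + 1) - X n c₀ j * L n c₀ j‖ ≤ R * ‖L n c₀ j‖ / 5 := by
  have hn' : (10:ℝ) ^ 6 ≤ n := by exact_mod_cast hn
  have hn0 : (0:ℝ) < n := by linarith
  have hn2 : 2 ≤ n := le_trans (by norm_num) hn
  have hR0 : 0 < R := lt_of_lt_of_le (by norm_num) hR
  have hl : 0 < ‖L n c₀ j‖ := norm_pos_iff.2 cf.geo.L0
  obtain ⟨v1, v2, v3⟩ := hVar n hn2 c₀ j cf.geo c hc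
  rw [hX] at v2
  have hA : ‖A n c j - 1‖ ≤ 102 / 1000 := by
    have h1 : A n c j - 1 = X n c j / n := by unfold A; ring
    have h2 : ‖X n c j‖ ≤ 51 / 50 * R := by
      have h2 : ‖X n c j‖ ≤ ‖X n c₀ j‖ + ‖X n c j - X n c₀ j‖ := by
        calc ‖X n c j‖ = ‖X n c₀ j + (X n c j - X n c₀ j)‖ := by congr 1; ring
          _ ≤ _ := norm_add_le _ _
      linarith
    rw [h1, norm_div, Complex.norm_natCast, div_le_iff₀ hn0]
    linarith
  refine ⟨hA, ?_⟩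
  have h1 := prod_est hR0.le hl.le v2 hX v1 rfl hA
  have h2 : L n c (j + 1) = (n - 1) / c + X n c j * L n c j / A n c j := rfl
  have h3 : ‖((n:ℂ) - 1) / c‖ ≤ 51 / 50 * ‖L n c₀ j‖ := by
    rw [norm_div, Pool.Agent.W216.MB.BAS.nm1 hn2]
    refine (cf.geo.big c hc).trans ?_
    have h4 : ‖L n c j‖ ≤ ‖L n c₀ j‖ + ‖L n c j - L n c₀ j‖ := by
      calc ‖L n c j‖ = ‖L n c₀ j + (L n c j - L n c₀ j)‖ := by congr 1; ring
        _ ≤ _ := norm_add_le _ _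
    linarith
  have h4 : L n c (j + 1) - X n c₀ j * L n c₀ j =
      ((n:ℂ) - 1) / c + (X n c j * L n c j / A n c j - X n c₀ j * L n c₀ j) := by
    rw [h2]; ring
  rw [h4]
  refine (norm_add_le _ _).trans ?_
  have h5 : 51 / 50 * ‖L n c₀ j‖ ≤ 1 / 100 * (R * ‖L n c₀ j‖) := by
    have h6 : (102:ℝ) ≤ R := le_trans (by norm_num) hR
    nlinarith
  linarith

theorem stage {n : ℕ} (hn : 10 ^ 6 ≤ n) {c₀ : ℂ} {j : ℕ} {D R : ℝ} (cf : Cf n c₀ j D)
    (hX : X n c₀ j = (R : ℂ)) (hR : 10 ^ 20 ≤ R) (hRn : R ≤ n / 10) (hlog : Real.log D ^ 4 ≤ R)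
    (hY : Y n c₀ ≤ 2 * R) (hexp : Real.exp (2 * R) ≤ 3 * n) {x : ℂ}
    (hx : x ∈ closedBall c₀ (1 / (400 * ‖L n c₀ j‖))) {w : ℂ} (hw : ‖w‖ = 1) :
    ∃ (c₁ : ℂ) (R₁ : ℝ), X n c₁ (j + 1) = R₁ * w ∧ Real.exp (R / 2) ≤ R₁ ∧
      R₁ ≤ Real.exp (2 * R) ∧ Cf n c₁ (j + 1) (2 * R₁ * D) ∧ Real.log (2 * R₁ * D) ^ 4 ≤ R₁ ∧
      Y n c₁ ≤ 2 * R₁ ∧ DD n c₁ (j + 1) ⊆ closedBall x (15 / (R * ‖L n c₀ j‖)) ∧
      closedBall x (15 / (R * ‖L n c₀ j‖)) ⊆ DD n c₀ j ∧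
      0 < ‖L n c₁ (j + 1)‖ ∧ ‖L n c₁ (j + 1)‖ ≤ 6 / 5 * (R * ‖L n c₀ j‖) := by
  have hn' : (10:ℝ) ^ 6 ≤ n := by exact_mod_cast hn
  have hn0 : (0:ℝ) < n := by linarith
  have hn2 : 2 ≤ n := le_trans (by norm_num) hn
  have hR0 : 0 < R := lt_of_lt_of_le (by norm_num) hR
  have hR6 : (10:ℝ) ^ 6 ≤ R := le_trans (by norm_num) hR
  have hD0 : 0 < D := by linarith [cf.D1]
  set l : ℝ := ‖L n c₀ j‖ with hl
  have hl0 : 0 < l := norm_pos_iff.2 cf.geo.L0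
  have hnX : ‖X n c₀ j‖ = R := by
    rw [hX, Complex.norm_real, Real.norm_eq_abs, abs_of_pos hR0]
  have hDDdef : DD n c₀ j = closedBall c₀ (1 / (100 * l)) := rfl
  have hsub1 : ball x (1 / (400 * l)) ⊆ closedBall c₀ (1 / (200 * l)) := by
    intro c hc
    rw [mem_ball] at hc
    rw [mem_closedBall] at hx ⊢
    have h1 : 1 / (200 * l) = 1 / (400 * l) + 1 / (400 * l) := by field_simp; norm_num
    rw [h1]
    exact (dist_triangle c x c₀).trans (add_le_add hc.le hx)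
  have hsub2 : closedBall c₀ (1 / (200 * l)) ⊆ DD n c₀ j := by
    rw [hDDdef]
    apply closedBall_subset_closedBall
    gcongr
    norm_num
  set ℓ₀ : ℂ := X n c₀ j * L n c₀ j with hℓ₀
  have hℓn : ‖ℓ₀‖ = R * l := by rw [hℓ₀, norm_mul, hnX]
  have hRl : 0 < R * l := by positivity
  have hℓ0 : ℓ₀ ≠ 0 := by
    rw [← norm_pos_iff, hℓn]; exact hRl
  have hA0 : ∀ c ∈ DD n c₀ j, A n c j ≠ 0 := by
    intro c hc h0
    have h1 := (Lnext hn cf hnX hR hRn hc).1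
    rw [h0, zero_sub, norm_neg, norm_one] at h1
    norm_num at h1
  have h14 : 14 / ‖ℓ₀‖ < 1 / (400 * l) := by
    rw [hℓn, div_lt_div_iff₀ hRl (by positivity)]
    nlinarith
  have hgood : ∀ c ∈ ball x (1 / (400 * l)), X n c (j + 1) ≠ 0 ∧
      HasDerivAt (fun c => X n c (j + 1)) (X n c (j + 1) * L n c (j + 1)) c ∧
      ‖L n c (j + 1) - ℓ₀‖ ≤ ‖ℓ₀‖ / 2 ∧ ContinuousAt (fun c => L n c (j + 1)) c := by
    intro c hc
    have hcD : c ∈ DD n c₀ j := hsub2 (hsub1 hc)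
    obtain ⟨hc0, hAi⟩ := cf.geo.nz c hcD
    have hAj := hA0 c hcD
    have hall : ∀ i < j + 1, A n c i ≠ 0 := by
      intro i hi
      rcases Nat.lt_succ_iff_lt_or_eq.1 hi with h | h
      · exact hAi i h
      · rw [h]; exact hAj
    obtain ⟨d1, d2⟩ := Pool.Agent.W366.MB.main n hn2 c (j + 1) hc0 hall
    refine ⟨?_, d1, ?_, d2.continuousAt⟩
    · have h1 : X n c (j + 1) = n * c ^ (n - 1) * A n c j ^ n := rfl
      rw [h1]
      refine mul_ne_zero (mul_ne_zero ?_ (pow_ne_zero _ hc0)) (pow_ne_zero _ hAj)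
      exact_mod_cast hn0.ne'
    · have := (Lnext hn cf hnX hR hRn hcD).2
      rw [hℓn]
      linarith
  obtain ⟨c₁, hc₁, t, ht0, ht⟩ := exists_dir (g := fun c => X n c (j + 1))
    (ℓ := fun c => L n c (j + 1)) (x := x) (ℓ₀ := ℓ₀) (w := w) (r := 1 / (400 * l)) hℓ0 h14 hgood
    (by rintro rfl; simp at hw)

  rw [hℓn] at hc₁ h14
  have hc₁b : c₁ ∈ ball x (1 / (400 * l)) := by
    rw [mem_closedBall] at hc₁
    rw [mem_ball]
    linarith
  have hc₁d : c₁ ∈ dd n c₀ j := hsub1 hc₁b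
  have hc₁D : c₁ ∈ DD n c₀ j := hsub2 hc₁d
  obtain ⟨v1, v2, v3⟩ := hVar n hn2 c₀ j cf.geo c₁ hc₁D
  rw [hnX] at v2
  have hnt : ‖X n c₁ (j + 1)‖ = t := by
    rw [ht, norm_mul, hw, mul_one, Complex.norm_real, Real.norm_eq_abs, abs_of_pos ht0]
  have hteq : t = Y n c₁ * ‖A n c₁ j‖ ^ n := by
    rw [← hnt, Pool.Agent.W12.MB.norm_X]
  have hY1 : 1 ≤ Y n c₁ := cf.y1 c₁ hc₁D
  have hY0 : 1 ≤ Y n c₀ := cf.y1 c₀ (mem_closedBall_self (by positivity))
  have hY2 : Y n c₁ ≤ 3 * R := by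
    have := (abs_le.1 v3).2
    linarith
  have h100 := exp_big (R := R) (by linarith)
  -- upper bound
  have hXle : ‖X n c₁ j‖ ≤ 51 / 50 * R := by
    have h2 : ‖X n c₁ j‖ ≤ ‖X n c₀ j‖ + ‖X n c₁ j - X n c₀ j‖ := by
      calc ‖X n c₁ j‖ = ‖X n c₀ j + (X n c₁ j - X n c₀ j)‖ := by congr 1; ring
        _ ≤ _ := norm_add_le _ _
    linarith
  have hup : t ≤ Real.exp (2 * R) := by
    have h1 : ‖A n c₁ j‖ ≤ Real.exp (51 / 50 * R / n) := by
      have h2 := Real.add_one_le_exp (51 / 50 * R / n)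
      have h3 : ‖A n c₁ j‖ ≤ 1 + ‖X n c₁ j‖ / n := by
        unfold A
        refine (norm_add_le _ _).trans ?_
        rw [norm_one, norm_div, Complex.norm_natCast]
      have h4 : ‖X n c₁ j‖ / n ≤ 51 / 50 * R / n := by gcongr
      linarith
    have h2 : ‖A n c₁ j‖ ^ n ≤ Real.exp (51 / 50 * R) := by
      calc ‖A n c₁ j‖ ^ n ≤ Real.exp (51 / 50 * R / n) ^ n :=
            pow_le_pow_left₀ (norm_nonneg _) h1 _
        _ = Real.exp (51 / 50 * R) := by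
            rw [← Real.exp_nat_mul]
            congr 1
            field_simp
    rw [hteq]
    calc Y n c₁ * ‖A n c₁ j‖ ^ n ≤ (3 * R) * Real.exp (51 / 50 * R) := by gcongr
      _ ≤ Real.exp (R / 2) * Real.exp (51 / 50 * R) := by
          apply mul_le_mul_of_nonneg_right _ (Real.exp_pos _).le
          linarith
      _ ≤ Real.exp (2 * R) := by
          rw [← Real.exp_add]
          apply Real.exp_le_exp.2
          linarith
  -- lower bound
  have hre : 98 / 100 * R ≤ (X n c₁ j).re := by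
    have h1 : (X n c₁ j - X n c₀ j).re = (X n c₁ j).re - R := by
      rw [hX]; simp
    have h2 := Complex.abs_re_le_norm (X n c₁ j - X n c₀ j)
    have h3 := neg_abs_le (X n c₁ j - X n c₀ j).re
    rw [h1] at h2 h3
    linarith
  have hlow : Real.exp (R / 2) ≤ t := by
    have hv : R / (2 * n) ≤ 1 / 20 := by
      rw [div_le_iff₀ (by positivity)]
      linarith
    have hv0 : 0 < R / (2 * n) := by positivity
    have h1 : Real.exp (R / (2 * n)) ≤ ‖A n c₁ j‖ := by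
      have h2 : Real.exp (R / (2 * n)) ≤ 1 / (1 - R / (2 * n)) := by
        have h3 := Real.add_one_le_exp (-(R / (2 * n)))
        rw [Real.exp_neg] at h3
        rw [le_div_iff₀ (by linarith)]
        have h4 := Real.exp_pos (R / (2 * n))
        calc Real.exp (R / (2 * n)) * (1 - R / (2 * n))
            ≤ Real.exp (R / (2 * n)) * (Real.exp (R / (2 * n)))⁻¹ := by
              apply mul_le_mul_of_nonneg_left _ h4.le
              linarith
          _ = 1 := mul_inv_cancel₀ h4.ne'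
      have h3 : 1 / (1 - R / (2 * n)) ≤ 1 + 19 / 10 * (R / (2 * n)) := by
        rw [div_le_iff₀ (by linarith)]
        nlinarith
      have h4 : (A n c₁ j).re = 1 + (X n c₁ j).re / n := by
        unfold A
        rw [Complex.add_re, Complex.one_re, Complex.div_natCast_re]
      have h5 : (A n c₁ j).re ≤ ‖A n c₁ j‖ := Complex.re_le_norm _
      have h6 : 98 / 100 * R / n ≤ (X n c₁ j).re / n := by gcongr
      have h7 : 98 / 100 * R / n = 196 / 100 * (R / (2 * n)) := by field_simp; norm_num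
      linarith
    have h2 : Real.exp (R / 2) ≤ ‖A n c₁ j‖ ^ n := by
      calc Real.exp (R / 2) = Real.exp (R / (2 * n)) ^ n := by
            rw [← Real.exp_nat_mul]
            congr 1
            field_simp
        _ ≤ _ := pow_le_pow_left₀ (Real.exp_pos _).le h1 _
    rw [hteq]
    nlinarith [Real.exp_pos (R / 2)]
  have ht1 : 1 ≤ t := by linarith
  have ht3 : t ≤ 3 * n := hup.trans hexp
  obtain ⟨g1, g2, g3⟩ := hStg n hn c₀ c₁ j cf.geo (by rw [hnX]; exact le_trans (by norm_num) hR)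
    (by rw [hnX]; linarith) (by linarith) (by linarith) hc₁d (by rw [hnt]; exact ht1)
    (by rw [hnt]; exact ht3)
  have hDD' : D ≤ 2 * t * D := by nlinarith
  have hL1 := (Lnext hn cf hnX hR hRn hc₁D).2
  have hL1' : 4 / 5 * (R * l) ≤ ‖L n c₁ (j + 1)‖ ∧ ‖L n c₁ (j + 1)‖ ≤ 6 / 5 * (R * l) := by
    rw [← hℓ₀, ← hl] at hL1
    have h2 : ‖ℓ₀‖ ≤ ‖L n c₁ (j + 1)‖ + ‖L n c₁ (j + 1) - ℓ₀‖ := by
      calc ‖ℓ₀‖ = ‖L n c₁ (j + 1) - (L n c₁ (j + 1) - ℓ₀)‖ := by congr 1; ring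
        _ ≤ _ := norm_sub_le _ _
    have h3 : ‖L n c₁ (j + 1)‖ ≤ ‖ℓ₀‖ + ‖L n c₁ (j + 1) - ℓ₀‖ := by
      calc ‖L n c₁ (j + 1)‖ = ‖ℓ₀ + (L n c₁ (j + 1) - ℓ₀)‖ := by congr 1; ring
        _ ≤ _ := norm_add_le _ _
    rw [hℓn] at h2 h3
    constructor <;> linarith
  have hLpos : 0 < ‖L n c₁ (j + 1)‖ := lt_of_lt_of_le (by positivity) hL1'.1
  refine ⟨c₁, t, ht, hlow, hup, ⟨g1, by nlinarith [cf.D1], ?_, ?_, ?_⟩, ?_, ?_, ?_, ?_, hLpos,
    hL1'.2⟩
  · intro c hc i hi1 hi2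
    have hcD := g2 hc
    rcases Nat.lt_or_ge j i with h | h
    · obtain rfl : i = j + 1 := by omega
      have hv := (hVar n hn2 c₁ (j + 1) g1 c hc).2.1
      rw [hnt] at hv
      have hX2 : ‖X n c (j + 1)‖ ≤ 51 / 50 * t := by
        have h2 : ‖X n c (j + 1)‖ ≤ ‖X n c₁ (j + 1)‖ + ‖X n c (j + 1) - X n c₁ (j + 1)‖ := by
          calc ‖X n c (j + 1)‖ = ‖X n c₁ (j + 1) + (X n c (j + 1) - X n c₁ (j + 1))‖ := by
                congr 1; ring
            _ ≤ _ := norm_add_le _ _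
        linarith
      refine hPhs n hn2 c j D _ (cf.geo.nz c hcD).1 cf.D1 hDD'
        (cf.ph c hcD j cf.geo.j1 le_rfl) (g3 c hc) ?_
      calc 3 / 2 * ‖X n c (j + 1)‖ * D ≤ 3 / 2 * (51 / 50 * t) * D := by gcongr
        _ ≤ 2 * t * D := by
            have : 0 ≤ t * D := by positivity
            nlinarith
    · exact PhAt.mono (by omega) (cf.ph c hcD i hi1 h) hD0 hDD'
  · intro c hc i hi1 hi2
    have hcD := g2 hc
    rcases Nat.lt_or_ge j i with h | h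
    · obtain rfl : i = j + 1 := by omega
      have hv := (hVar n hn2 c₁ (j + 1) g1 c hc).2.1
      rw [hnt] at hv
      have h2 : ‖X n c₁ (j + 1)‖ ≤ ‖X n c (j + 1)‖ + ‖X n c (j + 1) - X n c₁ (j + 1)‖ := by
        calc ‖X n c₁ (j + 1)‖ = ‖X n c (j + 1) - (X n c (j + 1) - X n c₁ (j + 1))‖ := by
              congr 1; ring
          _ ≤ _ := norm_sub_le _ _
      rw [hnt] at h2
      linarith
    · exact cf.far c hcD i hi1 h
  · intro c hc
    exact cf.y1 c (g2 hc)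
  · have h1 := num1 (D := D) (u := Real.log t) cf.D1 ?_
    · rw [Real.exp_log ht0] at h1
      exact h1
    · refine (umin_le cf.D1).trans ?_
      have h2 := logD_le hR hlog
      have h3 : R / 2 ≤ Real.log t := (Real.le_log_iff_exp_le ht0).2 hlow
      linarith
  · linarith
  · intro c hc
    have hc' : dist c c₁ ≤ 1 / (100 * ‖L n c₁ (j + 1)‖) := hc
    have h2 : 1 / (100 * ‖L n c₁ (j + 1)‖) ≤ 1 / (R * l) := by
      apply one_div_le_one_div_of_le hRl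
      linarith [hL1'.1]
    rw [mem_closedBall] at hc₁ ⊢
    have h3 : (15:ℝ) / (R * l) = 1 / (R * l) + 14 / (R * l) := by ring
    rw [h3]
    exact (dist_triangle c c₁ x).trans (add_le_add (hc'.trans h2) hc₁)
  · intro c hc
    rw [mem_closedBall] at hc hx
    rw [hDDdef, mem_closedBall]
    have h2 : 15 / (R * l) ≤ 1 / (400 * l) := by
      rw [div_le_div_iff₀ hRl (by positivity)]
      nlinarith
    have h3 : 1 / (400 * l) + 1 / (400 * l) ≤ 1 / (100 * l) := by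
      rw [← add_div, div_le_div_iff₀ (by positivity) (by positivity)]
      nlinarith
    exact (dist_triangle c x c₀).trans ((add_le_add (hc.trans h2) hx).trans h3)

end Pool.Agent.TH363.CD
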