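import Mathlib
import Pool.Agent.TH363.CD.Stage2

/-! The lower bound in the discs, by induction on the number of remaining stages. -/

set_option autoImplicit false
open Metric MeasureTheory Set Filter Topology

namespace Pool.Agent.TH363.CD

open Pool.Agent.W747.MB

/-- One step of growth. -/
noncomputable def E2 (R : ℝ) : ℝ := Real.exp (2 * R)

/-- The direction at the stage with `i` stages left. -/
def dir : ℕ → ℂ
  | 0 => -1
  | _ + 1 => 1

theorem norm_dir (i : ℕ) : ‖dir i‖ = 1 := by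
  cases i <;> simp [dir]

theorem E2_mono : Monotone E2 := by
  intro a b h
  exact Real.exp_le_exp.2 (by linarith)

theorem le_E2 (R : ℝ) : R ≤ E2 R := by
  have := Real.add_one_le_exp (2 * R)
  have h2 := Real.exp_pos (2 * R)
  unfold E2
  rcases le_or_gt 0 R with h | h <;> linarith

theorem le_iter (i : ℕ) (R : ℝ) : R ≤ E2^[i] R := by
  induction i generalizing R with
  | zero => exact le_refl _
  | succ i ih =>
    rw [Function.iterate_succ_apply]
    exact (le_E2 R).trans (ih _)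

theorem vol_ball_le {a b : ℂ} {r s K : ℝ} (hs : 0 ≤ s) (hK : 0 ≤ K) (h : r ≤ K * s) :
    volume (closedBall a r) ≤ ENNReal.ofReal (K ^ 2) * volume (closedBall b s) := by
  rw [Complex.volume_closedBall, Complex.volume_closedBall, ← mul_assoc,
    ENNReal.ofReal_pow hK, ← mul_pow, ← ENNReal.ofReal_mul hK]
  gcongr

theorem LB (i : ℕ) : ∃ K : ℝ, 0 < K ∧ ∀ n : ℕ, 10 ^ 6 ≤ n → ∀ (c₀ : ℂ) (j : ℕ) (D R : ℝ),
    Cf n c₀ j D → X n c₀ j = R * dir i → 10 ^ 20 ≤ R → E2^[i] R ≤ n / 10 →
    Real.log D ^ 4 ≤ R → Y n c₀ ≤ 2 * R →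
    volume (DD n c₀ j) ≤ ENNReal.ofReal K * volume (Ex n (j + i + 1) ∩ DD n c₀ j) := by
  induction i with
  | zero =>
    refine ⟨1, one_pos, ?_⟩
    intro n hn c₀ j D R cf hX hR hRn hlog hY
    have h1 := last hn cf (by rw [hX]; simp [dir]) hR hRn hlog hY
    rw [ENNReal.ofReal_one, one_mul]
    exact measure_mono fun c hc => ⟨h1 hc, hc⟩
  | succ i ih =>
    obtain ⟨K, hK, ih⟩ := ih
    refine ⟨16 * (9000 ^ 2 * K), by positivity, ?_⟩
    intro n hn c₀ j D R cf hX hR hRn hlog hY
    have hR0 : 0 < R := lt_of_lt_of_le (by norm_num) hR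
    have hl : 0 < ‖L n c₀ j‖ := norm_pos_iff.2 cf.geo.L0
    rw [Function.iterate_succ_apply] at hRn
    have h1 : E2 R ≤ n / 10 := (le_iter i _).trans hRn
    have h2 : R ≤ n / 10 := (le_E2 R).trans h1
    have hn0 : (0:ℝ) ≤ n := Nat.cast_nonneg n
    have h3 : Real.exp (2 * R) ≤ 3 * n := by
      have : E2 R = Real.exp (2 * R) := rfl
      linarith
    have hX' : X n c₀ j = (R : ℂ) := by rw [hX]; simp [dir]
    have key : volume (closedBall c₀ (1 / (400 * ‖L n c₀ j‖))) ≤
        ENNReal.ofReal (9000 ^ 2 * K) * volume (Ex n (j + (i + 1) + 1) ∩ DD n c₀ j) := by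
      refine vitali_lower _ _ _ (fun _ => 15 / (R * ‖L n c₀ j‖)) (15 / (R * ‖L n c₀ j‖)) _ ?_
      intro x hx
      obtain ⟨c₁, R₁, e1, e2, e3, e4, e5, e6, e7, e8, e9, e10⟩ :=
        stage hn cf hX' hR h2 hlog hY h3 hx (norm_dir i)
      refine ⟨by positivity, le_rfl, e8, ?_⟩
      have h4 := ih n hn c₁ (j + 1) _ R₁ e4 e1 ((exp_huge hR).trans e2)
        (((E2_mono.iterate i) (show R₁ ≤ E2 R from e3)).trans hRn) e5 e6
      have h5 : volume (closedBall x (5 * (15 / (R * ‖L n c₀ j‖)))) ≤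
          ENNReal.ofReal (9000 ^ 2) * volume (DD n c₁ (j + 1)) := by
        apply vol_ball_le (by positivity) (by norm_num)
        rw [mul_one_div, ← mul_div_assoc, div_le_div_iff₀ (by positivity) (by positivity)]
        nlinarith
      have h6 : j + 1 + i + 1 = j + (i + 1) + 1 := by ring
      rw [h6] at h4
      calc volume (closedBall x (5 * (15 / (R * ‖L n c₀ j‖))))
          ≤ ENNReal.ofReal (9000 ^ 2) * volume (DD n c₁ (j + 1)) := h5
        _ ≤ ENNReal.ofReal (9000 ^ 2) * (ENNReal.ofReal K *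
            volume (Ex n (j + (i + 1) + 1) ∩ DD n c₁ (j + 1))) := by gcongr
        _ = ENNReal.ofReal (9000 ^ 2 * K) *
            volume (Ex n (j + (i + 1) + 1) ∩ DD n c₁ (j + 1)) := by
            rw [← mul_assoc, ← ENNReal.ofReal_mul (by norm_num)]
        _ ≤ _ := by gcongr
    have h7 : volume (DD n c₀ j) ≤ ENNReal.ofReal (4 ^ 2) *
        volume (closedBall c₀ (1 / (400 * ‖L n c₀ j‖))) := by
      apply vol_ball_le (by positivity) (by norm_num)
      rw [mul_one_div, div_le_div_iff₀ (by positivity) (by positivity)]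
      nlinarith
    refine h7.trans ?_
    calc ENNReal.ofReal (4 ^ 2) * volume (closedBall c₀ (1 / (400 * ‖L n c₀ j‖)))
        ≤ ENNReal.ofReal (4 ^ 2) * (ENNReal.ofReal (9000 ^ 2 * K) *
          volume (Ex n (j + (i + 1) + 1) ∩ DD n c₀ j)) := by gcongr
      _ = _ := by
          rw [← mul_assoc, ← ENNReal.ofReal_mul (by norm_num)]
          norm_num

end Pool.Agent.TH363.CD
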