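import Mathlib
import Pool.Agent.W747.MB.Defs
import Pool.Agent.TH363.CD.Induct

/-! The area of an annulus: lower bound; iterated logarithms. -/

set_option autoImplicit false
open Metric MeasureTheory Set Filter Topology

namespace Pool.Agent.TH363.CD

open Pool.Agent.W747.MB

theorem annulus_lower {n : ℕ} (hn : 10 ^ 6 ≤ n) {a b : ℝ} (ha : 1 ≤ a) (hab : a ≤ b) :
    ENNReal.ofReal (Real.log (b / a) / n) ≤ volume {c : ℂ | a ≤ Y n c ∧ Y n c ≤ b} := by
  have hn' : (10:ℝ) ^ 6 ≤ n := by exact_mod_cast hn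
  have hn0 : (0 : ℝ) < n := by linarith
  have hn1 : (0 : ℝ) < (n : ℝ) - 1 := by linarith
  have hcast : ((n - 1 : ℕ) : ℝ) = (n : ℝ) - 1 := by
    rw [Nat.cast_sub (by omega), Nat.cast_one]
  have ha0 : 0 < a := by linarith
  have hb0 : 0 < b := by linarith
  set e : ℝ := 1 / ((n : ℝ) - 1) with he
  have he0 : 0 < e := by positivity
  set R : ℝ := (b / n) ^ e with hR
  set r : ℝ := (a / n) ^ e with hr
  have hR0 : 0 < R := Real.rpow_pos_of_pos (by positivity) _
  have hr0 : 0 < r := Real.rpow_pos_of_pos (by positivity) _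
  have hRpow : R ^ (n - 1) = b / n := by
    rw [hR, ← Real.rpow_natCast, ← Real.rpow_mul (by positivity), hcast, he,
      one_div_mul_cancel hn1.ne', Real.rpow_one]
  have hrpow : r ^ (n - 1) = a / n := by
    rw [hr, ← Real.rpow_natCast, ← Real.rpow_mul (by positivity), hcast, he,
      one_div_mul_cancel hn1.ne', Real.rpow_one]
  have hrR : r ≤ R := by
    rw [hr, hR]
    apply Real.rpow_le_rpow (by positivity) _ he0.le
    exact div_le_div_of_nonneg_right hab hn0.le
  have hsub : closedBall (0:ℂ) R \ ball 0 r ⊆ {c : ℂ | a ≤ Y n c ∧ Y n c ≤ b} := by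
    rintro c ⟨h1, h2⟩
    rw [mem_closedBall, dist_zero_right] at h1
    rw [mem_ball, dist_zero_right, not_lt] at h2
    have h3 : a / n ≤ ‖c‖ ^ (n - 1) := by
      rw [← hrpow]; exact pow_le_pow_left₀ hr0.le h2 _
    have h4 : ‖c‖ ^ (n - 1) ≤ b / n := by
      rw [← hRpow]; exact pow_le_pow_left₀ (norm_nonneg _) h1 _
    rw [div_le_iff₀ hn0] at h3
    rw [le_div_iff₀ hn0] at h4
    constructor
    · show a ≤ n * ‖c‖ ^ (n - 1)
      linarith
    · show n * ‖c‖ ^ (n - 1) ≤ b
      linarith
  refine le_trans ?_ (measure_mono hsub)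
  have hbsub : ball (0 : ℂ) r ⊆ closedBall 0 R :=
    ball_subset_closedBall.trans (closedBall_subset_closedBall hrR)
  rw [measure_diff hbsub measurableSet_ball.nullMeasurableSet measure_ball_lt_top.ne,
    Complex.volume_closedBall, Complex.volume_ball]
  have hpi : ((NNReal.pi : NNReal) : ENNReal) = ENNReal.ofReal Real.pi := by
    rw [← NNReal.coe_real_pi, ENNReal.ofReal_coe_nnreal]
  rw [hpi, ← ENNReal.ofReal_pow hR0.le, ← ENNReal.ofReal_pow hr0.le,
    ← ENNReal.ofReal_mul (by positivity), ← ENNReal.ofReal_mul (by positivity),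
    ← ENNReal.ofReal_sub _ (by positivity)]
  apply ENNReal.ofReal_le_ofReal
  set ℓ : ℝ := Real.log (b / a) with hℓ
  have hℓ0 : 0 ≤ ℓ := Real.log_nonneg (by rw [le_div_iff₀ ha0]; linarith)
  have hR2 : R ^ 2 = r ^ 2 * Real.exp (2 * e * ℓ) := by
    have h1 : R = r * Real.exp (e * ℓ) := by
      rw [hr, hR, hℓ, mul_comm e, Real.exp_mul, Real.exp_log (by positivity),
        ← Real.mul_rpow (by positivity) (by positivity)]
      congr 1
      field_simp
    rw [h1, mul_pow, ← Real.exp_nat_mul]
    congr 2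
    push_cast
    ring
  have hr2 : 1 / 2 ≤ r ^ 2 := by
    have h1 : r = Real.exp (e * Real.log (a / n)) := by
      rw [hr, Real.rpow_def_of_pos (by positivity), mul_comm]
    have h2 : r ^ 2 = Real.exp (2 * (e * Real.log (a / n))) := by
      rw [h1, ← Real.exp_nat_mul]
      norm_num
    have h3 : Real.log (a / n) = Real.log a - Real.log n := Real.log_div ha0.ne' hn0.ne'
    have h4 : 0 ≤ Real.log a := Real.log_nonneg ha
    have h5 : Real.log n ≤ (n - 1) / 4 := by
      have h6 : Real.log n = Real.log (n / 8) + Real.log 8 := by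
        rw [← Real.log_mul (by positivity) (by norm_num)]
        congr 1
        field_simp
      have h7 := Real.log_le_sub_one_of_pos (show (0:ℝ) < n / 8 by positivity)
      have h8 := Real.log_le_sub_one_of_pos (show (0:ℝ) < 8 by norm_num)
      linarith
    have h6 : -(1 / 4) ≤ e * Real.log (a / n) := by
      rw [he, one_div_mul_eq_div, le_div_iff₀ hn1, h3]
      linarith
    have h7 := Real.add_one_le_exp (2 * (e * Real.log (a / n)))
    rw [h2]
    linarith
  have hexp := Real.add_one_le_exp (2 * e * ℓ)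
  have hee : 1 / (n:ℝ) ≤ e := by
    rw [he]
    apply one_div_le_one_div_of_le hn1
    linarith
  have hel : 0 ≤ e * ℓ := by positivity
  have h9 : e * ℓ ≤ R ^ 2 - r ^ 2 := by
    rw [hR2]
    nlinarith
  calc ℓ / n = 1 / n * ℓ := by ring
    _ ≤ e * ℓ := by gcongr
    _ ≤ R ^ 2 - r ^ 2 := h9
    _ ≤ (R ^ 2 - r ^ 2) * Real.pi := by
        have := Real.pi_gt_three
        nlinarith
    _ = _ := by ring

theorem tendsto_iterlog (k : ℕ) : Tendsto (fun n : ℕ => Real.log^[k] (n:ℝ)) atTop atTop := by
  induction k with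
  | zero => exact tendsto_natCast_atTop_atTop
  | succ k ih =>
    simp only [Function.iterate_succ_apply']
    exact Real.tendsto_log_atTop.comp ih

theorem E2_log {s : ℝ} (hs : 100 ≤ s) : E2 (Real.log s / 10) ≤ s / 10 := by
  have hs0 : 0 < s := by linarith
  have h1 : Real.log 100 ≤ Real.log s := Real.log_le_log (by norm_num) hs
  have h2 : Real.log 100 = 2 * Real.log 10 := by
    rw [show (100:ℝ) = 10 ^ 2 by norm_num, Real.log_pow]
    norm_num
  have h3 : s / 10 = Real.exp (Real.log s - Real.log 10) := by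
    rw [Real.exp_sub, Real.exp_log hs0, Real.exp_log (by norm_num)]
  have h4 : 0 < Real.log 10 := Real.log_pos (by norm_num)
  rw [h3]
  unfold E2
  apply Real.exp_le_exp.2
  linarith

theorem iter_bound (k : ℕ) :
    ∀ᶠ n : ℕ in atTop, E2^[k] (Real.log^[k] (n:ℝ) / 10) ≤ n / 10 := by
  induction k with
  | zero => simp
  | succ k ih =>
    filter_upwards [ih, (tendsto_iterlog k).eventually_ge_atTop 100] with n h1 h2
    rw [Function.iterate_succ_apply, Function.iterate_succ_apply' Real.log]
    exact (E2_mono.iterate k (E2_log h2)).trans h1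

end Pool.Agent.TH363.CD
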