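import Mathlib
import Pool.Agent.TH363.CD.Induct
import Pool.Agent.W216.MB.BAS

/-! The area of the parameters with an attracting cycle of exact period `k + 1`: lower bound. -/

set_option autoImplicit false
open Metric MeasureTheory Set Filter Topology

namespace Pool.Agent.TH363.CD

open Pool.Agent.W747.MB

theorem exp15 : Real.exp 15 ≤ 10 ^ 8 := by
  have h1 : Real.exp 15 = Real.exp 1 ^ 15 := by rw [← Real.exp_nat_mul]; norm_num
  rw [h1]
  calc Real.exp 1 ^ 15 ≤ (2.7182818286:ℝ) ^ 15 := by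
        gcongr
        exact Real.exp_one_lt_d9.le
    _ ≤ 10 ^ 8 := by norm_num

theorem top (i : ℕ) : ∃ K : ℝ, 0 < K ∧ ∀ n : ℕ, 10 ^ 6 ≤ n → ∀ b : ℝ,
    E2^[i] (10 ^ 8 * b) ≤ n / 10 →
    volume {c : ℂ | 10 ^ 30 ≤ Y n c ∧ Y n c ≤ b} ≤ ENNReal.ofReal K * volume (Ex n (i + 2)) := by
  obtain ⟨K, hK, hLB⟩ := LB i
  refine ⟨15000 ^ 2 * K, by positivity, ?_⟩
  intro n hn b hb
  have hn' : (10:ℝ) ^ 6 ≤ n := by exact_mod_cast hn
  have hn0 : (0:ℝ) < n := by linarith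
  have hn2 : 2 ≤ n := le_trans (by norm_num) hn
  have hb1 : 10 ^ 8 * b ≤ n / 10 := (le_iter i _).trans hb
  set N : ℝ := (n:ℝ) - 1 with hN
  have hN6 : (10:ℝ) ^ 5 ≤ N := by rw [hN]; linarith
  have hN0 : 0 < N := by linarith
  have hcast : ((n - 1 : ℕ) : ℝ) = N := by
    rw [Nat.cast_sub (by omega)]
    simp [hN]
  have hkey := vitali_lower {c : ℂ | 10 ^ 30 ≤ Y n c ∧ Y n c ≤ b} univ (Ex n (i + 2))
    (fun x => 15 * ‖x‖ / N) 15 (15000 ^ 2 * K) ?_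
  · rwa [inter_univ] at hkey
  rintro x ⟨hx1, hx2⟩
  have hYx : Y n x = n * ‖x‖ ^ (n - 1) := rfl
  have hx0 : 0 < ‖x‖ := by
    rcases (norm_nonneg x).lt_or_eq with h | h
    · exact h
    · rw [hYx, ← h, zero_pow (by omega)] at hx1
      norm_num at hx1
  have hxne : x ≠ 0 := norm_pos_iff.1 hx0
  have hxle : ‖x‖ ≤ 1 := by
    by_contra h
    push Not at h
    have h1 : 1 ≤ ‖x‖ ^ (n - 1) := one_le_pow₀ h.le
    have h2 : (n:ℝ) ≤ Y n x := by rw [hYx]; nlinarith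
    have h3 : 0 ≤ b := le_trans (by linarith) hx2
    nlinarith
  set ℓ₀ : ℂ := ((n:ℂ) - 1) / x with hℓ₀
  have hℓn : ‖ℓ₀‖ = N / ‖x‖ := by
    rw [hℓ₀, norm_div, Pool.Agent.W216.MB.BAS.nm1 hn2]
  have hℓpos : 0 < ‖ℓ₀‖ := by rw [hℓn]; positivity
  have h14 : 14 / ‖ℓ₀‖ = 14 * ‖x‖ / N := by rw [hℓn]; field_simp
  have h14' : 14 / ‖ℓ₀‖ < ‖x‖ / 3 := by
    rw [h14, div_lt_div_iff₀ hN0 (by norm_num)]
    nlinarith
  have hgood : ∀ c ∈ ball x (‖x‖ / 3), X n c 1 ≠ 0 ∧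
      HasDerivAt (fun c => X n c 1) (X n c 1 * L n c 1) c ∧
      ‖L n c 1 - ℓ₀‖ ≤ ‖ℓ₀‖ / 2 ∧ ContinuousAt (fun c => L n c 1) c := by
    intro c hc
    rw [mem_ball, dist_eq_norm] at hc
    have hcx : 2 / 3 * ‖x‖ ≤ ‖c‖ := by
      have h2 : ‖x‖ ≤ ‖c‖ + ‖c - x‖ := by
        calc ‖x‖ = ‖c - (c - x)‖ := by congr 1; ring
          _ ≤ _ := norm_sub_le _ _
      linarith
    have hc0 : 0 < ‖c‖ := by linarith [mul_pos (show (0:ℝ) < 2 / 3 by norm_num) hx0]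
    have hcne : c ≠ 0 := norm_pos_iff.1 hc0
    obtain ⟨d1, d2⟩ := Pool.Agent.W366.MB.main n hn2 c 1 hcne (by
      intro i hi
      obtain rfl : i = 0 := by omega
      simp [A, X])
    refine ⟨?_, d1, ?_, d2.continuousAt⟩
    · rw [Pool.Agent.W216.MB.BAS.X1]
      refine mul_ne_zero ?_ (pow_ne_zero _ hcne)
      exact_mod_cast hn0.ne'
    · have h1 : L n c 1 - ℓ₀ = ℓ₀ * ((x - c) / c) := by
        rw [Pool.Agent.W216.MB.BAS.L1, hℓ₀]
        field_simp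
      have h2 : ‖(x - c) / c‖ ≤ 1 / 2 := by
        rw [norm_div, norm_sub_rev, div_le_iff₀ hc0]
        linarith
      rw [h1, norm_mul]
      calc ‖ℓ₀‖ * ‖(x - c) / c‖ ≤ ‖ℓ₀‖ * (1 / 2) := mul_le_mul_of_nonneg_left h2 hℓpos.le
        _ = ‖ℓ₀‖ / 2 := by ring
  obtain ⟨c₁, hc₁, t, ht0, ht⟩ := exists_dir (g := fun c => X n c 1)
    (ℓ := fun c => L n c 1) (x := x) (ℓ₀ := ℓ₀) (w := dir i) (r := ‖x‖ / 3)
    (norm_pos_iff.1 hℓpos) h14' hgood (by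
      rw [← norm_pos_iff, norm_dir]
      exact one_pos)
  rw [h14, mem_closedBall, dist_eq_norm] at hc₁
  have hY1 : Y n c₁ = t := by
    have h1 : ‖X n c₁ 1‖ = Y n c₁ := by
      rw [Pool.Agent.W216.MB.BAS.X1, norm_mul, norm_pow, Complex.norm_natCast]
      rfl
    rw [← h1, ht, norm_mul, norm_dir, mul_one, Complex.norm_real, Real.norm_eq_abs,
      abs_of_pos ht0]
  have hY1d : Y n c₁ = n * ‖c₁‖ ^ (n - 1) := rfl
  -- comparison of the moduli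
  have hup : ‖c₁‖ ≤ ‖x‖ * (1 + 15 / N) := by
    have h2 : ‖c₁‖ ≤ ‖x‖ + ‖c₁ - x‖ := by
      calc ‖c₁‖ = ‖x + (c₁ - x)‖ := by congr 1; ring
        _ ≤ _ := norm_add_le _ _
    have h3 : 14 * ‖x‖ / N ≤ ‖x‖ * (15 / N) := by
      rw [← mul_div_assoc]
      apply div_le_div_of_nonneg_right _ hN0.le
      linarith
    linarith
  have hlo : ‖x‖ * (1 - 14 / N) ≤ ‖c₁‖ := by
    have h2 : ‖x‖ ≤ ‖c₁‖ + ‖c₁ - x‖ := by
      calc ‖x‖ = ‖c₁ - (c₁ - x)‖ := by congr 1; ring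
        _ ≤ _ := norm_sub_le _ _
    have h3 : 14 * ‖x‖ / N = ‖x‖ * (14 / N) := by ring
    linarith
  have hiN : 14 / N ≤ 1 / 1000 := by
    rw [div_le_div_iff₀ hN0 (by norm_num)]
    linarith
  have hlo2 : ‖x‖ ≤ ‖c₁‖ * (1 + 15 / N) := by
    have h1 : 1 ≤ (1 - 14 / N) * (1 + 15 / N) := by
      have h2 : (1 - 14 / N) * (1 + 15 / N) = 1 + (1 - 15 * (14 / N)) / N := by
        field_simp
        ring
      rw [h2]
      have : 0 ≤ (1 - 15 * (14 / N)) / N := by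
        apply div_nonneg _ hN0.le
        linarith
      linarith
    have h3 : 0 ≤ 1 + 15 / N := by positivity
    calc ‖x‖ ≤ ‖x‖ * ((1 - 14 / N) * (1 + 15 / N)) := by nlinarith
      _ = ‖x‖ * (1 - 14 / N) * (1 + 15 / N) := by ring
      _ ≤ ‖c₁‖ * (1 + 15 / N) := mul_le_mul_of_nonneg_right hlo h3
  have hpow : (1 + 15 / N) ^ (n - 1) ≤ 10 ^ 8 := by
    have h1 : 1 + 15 / N ≤ Real.exp (15 / N) := by
      have := Real.add_one_le_exp (15 / N)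
      linarith
    calc (1 + 15 / N) ^ (n - 1) ≤ Real.exp (15 / N) ^ (n - 1) :=
          pow_le_pow_left₀ (by positivity) h1 _
      _ = Real.exp 15 := by
          rw [← Real.exp_nat_mul, hcast]
          congr 1
          field_simp
      _ ≤ _ := exp15
  have ht_up : t ≤ 10 ^ 8 * b := by
    rw [← hY1, hY1d]
    calc (n:ℝ) * ‖c₁‖ ^ (n - 1) ≤ n * (‖x‖ * (1 + 15 / N)) ^ (n - 1) := by gcongr
      _ = (1 + 15 / N) ^ (n - 1) * Y n x := by rw [mul_pow, hYx]; ring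
      _ ≤ 10 ^ 8 * b := by gcongr
  have ht_lo : (10:ℝ) ^ 22 ≤ t := by
    have h1 : Y n x ≤ 10 ^ 8 * t := by
      rw [← hY1, hY1d, hYx]
      calc (n:ℝ) * ‖x‖ ^ (n - 1) ≤ n * (‖c₁‖ * (1 + 15 / N)) ^ (n - 1) := by gcongr
        _ = (1 + 15 / N) ^ (n - 1) * (n * ‖c₁‖ ^ (n - 1)) := by rw [mul_pow]; ring
        _ ≤ 10 ^ 8 * (n * ‖c₁‖ ^ (n - 1)) := by gcongr
    have h2 : (10:ℝ) ^ 30 ≤ 10 ^ 8 * t := hx1.trans h1
    have h3 : (10:ℝ) ^ 30 = 10 ^ 8 * 10 ^ 22 := by norm_num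
    rw [h3] at h2
    exact le_of_mul_le_mul_left h2 (by norm_num)
  have ht1 : 1 ≤ Y n c₁ := by rw [hY1]; exact le_trans (by norm_num) ht_lo
  obtain ⟨cfg, hL, hXn⟩ := Pool.Agent.W216.MB.BAS.main n hn2 c₁ ht1
  have hy1 : ∀ c ∈ DD n c₁ 1, 1 ≤ Y n c := by
    intro c hc
    have := (abs_le.1 (hVar n hn2 c₁ 1 cfg.geo c hc).2.2).1
    rw [hY1] at this
    have h5 : (2:ℝ) ≤ t := le_trans (by norm_num) ht_lo
    linarith
  have cf : Cf n c₁ 1 (2 * t) := by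
    rw [← hY1]
    refine ⟨cfg.geo, by linarith, ?_, ?_, hy1⟩
    · intro c hc i hi1 hi2
      obtain rfl : i = 1 := by omega
      exact cfg.ph c hc
    · intro c hc i hi1 hi2
      obtain rfl : i = 1 := by omega
      rw [Pool.Agent.W216.MB.BAS.X1, norm_mul, norm_pow, Complex.norm_natCast]
      exact hy1 c hc
  have hlog : Real.log (2 * t) ^ 4 ≤ t := by
    have h1 := num1 (D := 1) (u := Real.log t) le_rfl (by
      unfold umin
      rw [Real.log_one, add_zero, Real.log_one, mul_zero, add_zero]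
      exact Real.log_le_log (by norm_num) (le_trans (by norm_num) ht_lo))
    rw [Real.exp_log ht0, mul_one] at h1
    exact h1
  have h4 := hLB n hn c₁ 1 _ t cf ht (le_trans (by norm_num) ht_lo)
    (((E2_mono.iterate i) ht_up).trans hb) hlog (by rw [hY1]; linarith)
  have hcx : ‖x‖ / 2 ≤ ‖c₁‖ := by nlinarith
  have hLn : ‖L n c₁ 1‖ = N / ‖c₁‖ := by
    rw [hL, norm_div, Pool.Agent.W216.MB.BAS.nm1 hn2]
  have hc₁0 : 0 < ‖c₁‖ := by linarith
  have hrad : 1 / (100 * ‖L n c₁ 1‖) = ‖c₁‖ / (100 * N) := by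
    rw [hLn]; field_simp
  refine ⟨by positivity, ?_, subset_univ _, ?_⟩
  · rw [div_le_iff₀ hN0]
    nlinarith
  have h5 : volume (closedBall x (5 * (15 * ‖x‖ / N))) ≤
      ENNReal.ofReal (15000 ^ 2) * volume (DD n c₁ 1) := by
    unfold DD
    rw [hrad]
    apply vol_ball_le (by positivity) (by norm_num)
    rw [← mul_div_assoc, ← mul_div_assoc, div_le_div_iff₀ hN0 (by positivity)]
    nlinarith
  have hsub : DD n c₁ 1 ⊆ closedBall x (15 * ‖x‖ / N) := by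
    intro c hc
    unfold DD at hc
    rw [hrad, mem_closedBall] at hc
    rw [mem_closedBall]
    have h6 : ‖c₁‖ / (100 * N) ≤ ‖x‖ / N := by
      rw [div_le_div_iff₀ (by positivity) hN0]
      have h7 : ‖c₁‖ ≤ 2 * ‖x‖ := by
        have h8 : 15 / N ≤ 1 := by
          rw [div_le_one hN0]; linarith
        nlinarith
      nlinarith
    have h9 : 15 * ‖x‖ / N = ‖x‖ / N + 14 * ‖x‖ / N := by ring
    rw [h9]
    refine (dist_triangle c c₁ x).trans (add_le_add (hc.trans h6) ?_)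
    rw [dist_eq_norm]
    exact hc₁
  have h6 : 1 + i + 1 = i + 2 := by ring
  rw [h6] at h4
  calc volume (closedBall x (5 * (15 * ‖x‖ / N)))
      ≤ ENNReal.ofReal (15000 ^ 2) * volume (DD n c₁ 1) := h5
    _ ≤ ENNReal.ofReal (15000 ^ 2) * (ENNReal.ofReal K *
        volume (Ex n (i + 2) ∩ DD n c₁ 1)) := by gcongr
    _ = ENNReal.ofReal (15000 ^ 2 * K) * volume (Ex n (i + 2) ∩ DD n c₁ 1) := by
        rw [← mul_assoc, ← ENNReal.ofReal_mul (by norm_num)]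
    _ ≤ _ := by gcongr

end Pool.Agent.TH363.CD
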