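import Mathlib
import Pool.Agent.TH363.CD.Stage
import Pool.Agent.H400R3.HI.Fatou

/-! Uniqueness of the attracting cycle of `z ^ n + c` (Fatou's theorem). -/

set_option autoImplicit false
open Metric MeasureTheory Set Filter Topology Polynomial

namespace Pool.Agent.TH363.CD

open Pool.Agent.H713R5.QJ Pool.Agent.H713R3.ZA

theorem crit_conv {n : ℕ} (hn : 2 ≤ n) {c z : ℂ} {m : ℕ}
    (hz : N62a1eb23.IsAttractingCycle (Pool.Agent.W747.MB.f n c) m z) :
    ∃ l : ℕ, Tendsto (fun k : ℕ => (Pool.Agent.W747.MB.f n c)^[m * k] 0) atTop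
      (𝓝 ((Pool.Agent.W747.MB.f n c)^[l] z)) := by
  obtain ⟨N, rfl⟩ : ∃ N, n = N + 1 := ⟨n - 1, by omega⟩
  have hN : 1 ≤ N := by omega
  set g : ℂ[X] := X ^ (N + 1) + C c with hg
  have hdeg : g.natDegree = N + 1 := by
    rw [hg]; compute_degree!
  obtain ⟨x, hx⟩ := surj_holds N g hN hdeg
  have hmon : g.coeff (N + 1) = 1 := by
    rw [hg, coeff_add, coeff_X_pow_self, coeff_C_succ, add_zero]
  rw [hmon] at hx
  have hfx : fx 1 N x = Pool.Agent.W747.MB.f (N + 1) c := by
    funext w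
    show (fam 1 N x).eval w = _
    rw [hx, hg]
    simp [Pool.Agent.W747.MB.f]
  have hcrit : ∀ i : Fin N, x (some i) = 0 := by
    intro i
    have h1 := derivative_fam 1 N x
    rw [hx, hg] at h1
    have h2 := congrArg (fun p : ℂ[X] => p.eval (x (some i))) h1
    simp only [derivative_add, derivative_X_pow, derivative_C, add_zero, eval_mul, eval_pow,
      eval_X, dfam, eval_prod, eval_sub, eval_C] at h2
    rw [Finset.prod_eq_zero (Finset.mem_univ i) (sub_self _), mul_zero] at h2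
    have h3 : ((N + 1 : ℕ) : ℂ) ≠ 0 := by exact_mod_cast Nat.succ_ne_zero N
    have h4 : x (some i) ^ (N + 1 - 1) = 0 := by
      rcases mul_eq_zero.1 h2 with h | h
      · exfalso
        apply h3
        simpa using h
      · exact h
    exact pow_eq_zero_iff (by omega) |>.1 h4
  obtain ⟨hm, hper, -, hder⟩ := hz
  obtain ⟨i, l, h3⟩ := fatp_holds ko0_holds ko1_holds ko2_holds ko3_holds root_holds kbp_holds
    1 N m one_ne_zero hN hm x z (by rw [hfx]; exact hper) (by rw [hfx]; exact hder)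
  rw [hfx, hcrit i] at h3
  exact ⟨l, h3.2.2⟩

/-- All attracting cycles have the same exact period. -/
theorem period_unique {n : ℕ} (hn : 2 ≤ n) {c z z' : ℂ} {m m' : ℕ}
    (hz : N62a1eb23.IsAttractingCycle (Pool.Agent.W747.MB.f n c) m z)
    (hz' : N62a1eb23.IsAttractingCycle (Pool.Agent.W747.MB.f n c) m' z') :
    Function.minimalPeriod (Pool.Agent.W747.MB.f n c) z' =
      Function.minimalPeriod (Pool.Agent.W747.MB.f n c) z := by
  set G := Pool.Agent.W747.MB.f n c with hG
  obtain ⟨l, h1⟩ := crit_conv hn hz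
  obtain ⟨l', h2⟩ := crit_conv hn hz'
  rw [← hG] at h1 h2
  have t1 : Tendsto (fun k : ℕ => G^[m * (m' * k)] 0) atTop (𝓝 (G^[l] z)) :=
    h1.comp (tendsto_id.const_mul_atTop' hz'.1)
  have t2 : Tendsto (fun k : ℕ => G^[m' * (m * k)] 0) atTop (𝓝 (G^[l'] z')) :=
    h2.comp (tendsto_id.const_mul_atTop' hz.1)
  have t3 : G^[l] z = G^[l'] z' := by
    refine tendsto_nhds_unique t1 (t2.congr fun k => ?_)
    rw [show m' * (m * k) = m * (m' * k) by ring]
  have e1 : Function.minimalPeriod G (G^[l] z) = Function.minimalPeriod G z :=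
    Function.minimalPeriod_apply_iterate ⟨m, hz.1, hz.2.1⟩ l
  have e2 : Function.minimalPeriod G (G^[l'] z') = Function.minimalPeriod G z' :=
    Function.minimalPeriod_apply_iterate ⟨m', hz'.1, hz'.2.1⟩ l'
  rw [← e1, ← e2, t3]

/-- A parameter with an attracting cycle lies in the Multibrot set. -/
theorem mem_multibrot {n : ℕ} (hn : 2 ≤ n) {c z : ℂ} {m : ℕ}
    (hz : N62a1eb23.IsAttractingCycle (Pool.Agent.W747.MB.f n c) m z) :
    c ∈ N62a1eb23.multibrotSet n := by
  obtain ⟨l, h1⟩ := crit_conv hn hz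
  intro h
  have h2 : Tendsto (fun k : ℕ => (Pool.Agent.W747.MB.f n c)^[m * k] 0) atTop
      (Bornology.cobounded ℂ) :=
    Tendsto.comp h (tendsto_id.const_mul_atTop' hz.1)
  exact h1.not_tendsto (Metric.disjoint_nhds_cobounded _) h2

end Pool.Agent.TH363.CD
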