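import Mathlib
import Pool.Agent.TH363.CD.Upper1
import Pool.Agent.TH363.CD.Stage
import Pool.Agent.W747.MB.Rec
import Pool.Agent.W135.MB.Vit
import Pool.Agent.W816.MB.Slc
import Pool.Agent.W21.MB.Slb

/-! Parameters without attracting cycles of period at most `k`: the local estimate. The recursion
follows the file `W747.MB.Rec`. -/

set_option autoImplicit false
open Metric MeasureTheory Set

namespace Pool.Agent.TH363.CD

open Pool.Agent.W747.MB

/-- The parameters of the Multibrot set without attracting cycle of period at most `k`. -/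
def NN (n k : ℕ) : Set ℂ :=
  {c | c ∈ N62a1eb23.multibrotSet n ∧
    ∀ m, 1 ≤ m → m ≤ k → ¬ ∃ z, N62a1eb23.IsAttractingCycle (f n c) m z}

/-- The thresholds. -/
noncomputable def Lam : ℕ → ℝ → ℝ
  | 0, t => 4 * t
  | (i + 1), t => 1 + Real.log (Lam i t)

theorem one_le_Lam {t : ℝ} (ht : 1 ≤ t) (i : ℕ) : 1 ≤ Lam i t := by
  induction i with
  | zero => show 1 ≤ 4 * t; linarith
  | succ i ih =>
    have := Real.log_nonneg ih
    show 1 ≤ 1 + Real.log (Lam i t)
    linarith

theorem hSlc : P_SLC := Pool.Agent.W816.MB.main Pool.Agent.W366.MB.main hVar Pool.Agent.W21.MB.main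

theorem hVit : P_VIT := Pool.Agent.W135.MB.Vit.main

/-- The local estimate with `i` stages left. -/
def UU (i : ℕ) (C : ℝ) : Prop := ∀ (n : ℕ), 10 ^ 6 ≤ n → ∀ (c₀ : ℂ) (j : ℕ) (D : ℝ), Cfg n c₀ j D →
  10 ^ 20 ≤ ‖X n c₀ j‖ → ‖X n c₀ j‖ ≤ 3 * n → Real.log D ^ 4 ≤ ‖X n c₀ j‖ →
  1 / 4 ≤ Y n c₀ → Y n c₀ ≤ 3 * n →
  volume (NN n (j + i) ∩ dd n c₀ j) ≤
    ENNReal.ofReal (C * (Lam i n + Real.log D) / ‖X n c₀ j‖) * volume (dd n c₀ j)

theorem UU_zero : UU 0 1 := by
  intro n hn c₀ j D cfg h20 h3 hlog hY1 hY2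
  have hs0 : 0 < ‖X n c₀ j‖ := lt_of_lt_of_le (by norm_num) h20
  have hΛ := Real.log_nonneg cfg.D1
  calc volume (NN n (j + 0) ∩ dd n c₀ j) ≤ volume (dd n c₀ j) := measure_mono inter_subset_right
    _ = 1 * volume (dd n c₀ j) := (one_mul _).symm
    _ ≤ _ := by
        gcongr
        rw [ENNReal.one_le_ofReal, one_le_div hs0]
        show _ ≤ 1 * (4 * (n:ℝ) + Real.log D)
        have hn0 : (0:ℝ) ≤ n := Nat.cast_nonneg n
        linarith

theorem tail_num {Λ D u m : ℝ} (hΛ : 1 ≤ Λ) (hD : 1 ≤ D) (hm : 0 ≤ m)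
    (hu : umin D + Real.log Λ + m ≤ u) :
    (Λ + Real.log (2 * Real.exp u * D)) / Real.exp u ≤ 2 * Real.exp (-m / 2) := by
  have hΛ0 : 0 < Λ := by linarith
  have hlΛ := Real.log_nonneg hΛ
  have h46 := umin_ge hD
  have hu1 : umin D ≤ u := by linarith
  have h1 := num1 hD hu1
  have hlD := Real.log_nonneg hD
  set t := Real.log (2 * Real.exp u * D) with ht
  have ht0 : 0 ≤ t := by
    apply Real.log_nonneg
    have : 1 ≤ Real.exp u := Real.one_le_exp (by linarith)
    nlinarith
  have h2 : t ≤ Real.exp (u / 4) := by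
    by_contra h
    push Not at h
    have h3 : Real.exp (u / 4) ^ 4 < t ^ 4 := pow_lt_pow_left₀ h (Real.exp_pos _).le (by norm_num)
    have h4 : Real.exp (u / 4) ^ 4 = Real.exp u := by
      rw [← Real.exp_nat_mul]; congr 1; push_cast; ring
    rw [h4] at h3
    linarith
  have h3 : Λ ≤ Real.exp (u - m) := by
    rw [← Real.log_le_iff_le_exp hΛ0]
    linarith
  have h4 : Real.exp (u / 4) ≤ Real.exp (u - m / 2) := by
    apply Real.exp_le_exp.2
    linarith
  have h5 : Real.exp (u - m) ≤ Real.exp (u - m / 2) := by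
    apply Real.exp_le_exp.2
    linarith
  rw [div_le_iff₀ (Real.exp_pos u), mul_assoc, ← Real.exp_add]
  have h6 : -m / 2 + u = u - m / 2 := by ring
  rw [h6]
  linarith

theorem UU_succ {i : ℕ} {C : ℝ} (hC : 0 ≤ C) (hF : UU i C) : UU (i + 1) (60000 + 495000 * C) := by
  intro n hn c₀ j D cfg h20 h3 hlog hY1 hY2
  have hn' : (10:ℝ) ^ 6 ≤ n := by exact_mod_cast hn
  have hn2 : 2 ≤ n := le_trans (by norm_num) hn
  have hD := cfg.D1
  have hΛ := Real.log_nonneg hD
  have hu46 := umin_ge hD
  have hLam : 1 ≤ Lam i n := one_le_Lam (by linarith) i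
  have hlLam := Real.log_nonneg hLam
  have hkeq : j + (i + 1) = j + 1 + i := by ring
  rw [hkeq]
  set k := j + 1 + i with hk
  set w := umin D + Real.log (Lam i n) with hw
  set s := ‖X n c₀ j‖ with hs
  have hs0 : 0 < s := lt_of_lt_of_le (by norm_num) h20
  have hLp : 0 < ‖L n c₀ j‖ := norm_pos_iff.mpr cfg.geo.L0
  have hsub : dd n c₀ j ⊆ DD n c₀ j := by
    apply closedBall_subset_closedBall
    gcongr
    norm_num
  have hj1 := cfg.geo.j1
  have halvN : ∀ c ∈ NN n k, 1 / 3 ≤ Y n c ∧ Y n c ≤ 2 * n ∧ ∀ j, ‖X n c j‖ ≤ 3 * n :=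
    fun c hc => alv' hn hc.1 (hc.2 1 le_rfl (by omega))
  rcases (NN n k ∩ dd n c₀ j).eq_empty_or_nonempty with he | ⟨b, hbB, hbd⟩
  · rw [he, measure_empty]; exact zero_le
  have hlow : ∀ c ∈ NN n k, c ∈ DD n c₀ j → 98 / 100 ≤ ‖A n c j‖ ∧ ‖A n c j‖ ≤ 101 / 100 ∧
      -(4 + Real.log D) ≤ Real.log ‖X n c (j + 1)‖ := fun c hc hcd => by
    obtain ⟨b1, b2, b3⟩ := halvN c hc
    exact low' hn b1 b2 b3 (hc.2 (j + 1) (by omega) (by omega)) hD (cfg.ph c hcd) (hlog.trans h3)
  have hb := hlow b hbB (hsub hbd)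
  have h104 : (10:ℝ) ^ 4 ≤ s := le_trans (by norm_num) h20
  have slab := hSlc n hn c₀ b j cfg.geo h104 h3 (hsub hbd) hb.1 hb.2.1
  set K : ℕ := ⌈Real.log (3 * n)⌉₊ + 1 with hK
  set R : ℕ → Set ℂ := fun m => {c | c ∈ NN n k ∧ c ∈ dd n c₀ j ∧
    w + m ≤ Real.log ‖X n c (j + 1)‖ ∧ Real.log ‖X n c (j + 1)‖ ≤ w + m + 1} with hR
  set R0 : Set ℂ := {c | c ∈ DD n c₀ j ∧ -(4 + Real.log D) ≤ Real.log ‖X n c (j + 1)‖ ∧
    Real.log ‖X n c (j + 1)‖ ≤ w} with hR0
  have hcov : NN n k ∩ dd n c₀ j ⊆ R0 ∪ ⋃ m ∈ Finset.range K, R m := by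
    rintro c ⟨hc1, hc2⟩
    have h5 := (hlow c hc1 (hsub hc2)).2.2
    rcases le_or_gt (Real.log ‖X n c (j + 1)‖) w with h6 | h6
    · exact Or.inl ⟨hsub hc2, h5, h6⟩
    · right
      set u := Real.log ‖X n c (j + 1)‖ with hu
      have h7 : ‖X n c (j + 1)‖ ≤ 3 * n := (halvN c hc1).2.2 (j + 1)
      have h8 : 0 < ‖X n c (j + 1)‖ := by
        by_contra h9
        have : ‖X n c (j + 1)‖ = 0 := le_antisymm (not_lt.mp h9) (norm_nonneg _)
        rw [hu, this, Real.log_zero] at h6
        linarith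
      have h9 : u ≤ Real.log (3 * n) := Real.log_le_log h8 h7
      have h10 : 0 ≤ u - w := by linarith
      rw [Set.mem_iUnion₂]
      refine ⟨⌊u - w⌋₊, ?_, hc1, hc2, ?_, ?_⟩
      · rw [Finset.mem_range, hK]
        have h11 : ⌊u - w⌋₊ ≤ ⌈Real.log (3 * n)⌉₊ := by
          refine (Nat.floor_le_ceil _).trans (Nat.ceil_le_ceil ?_)
          linarith
        omega
      · have := Nat.floor_le h10
        linarith
      · have := (Nat.lt_floor_add_one (u - w)).le
        linarith
  have hR0v : volume R0 ≤ ENNReal.ofReal (1100 * (w + 4 + Real.log D) / s) *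
      volume (dd n c₀ j) := by
    have := slab (-(4 + Real.log D)) w (by linarith)
    refine this.trans (le_of_eq ?_)
    congr 3
    ring
  have hRv : ∀ m : ℕ, volume (R m) ≤
      ENNReal.ofReal (165000 * C * Real.exp (-(m:ℝ) / 2) / s) * volume (dd n c₀ j) := by
    intro m
    set U : Set ℂ := {c | c ∈ DD n c₀ j ∧ w + m - 1 ≤ Real.log ‖X n c (j + 1)‖ ∧
      Real.log ‖X n c (j + 1)‖ ≤ w + m + 2} with hU
    have hUv : volume U ≤ ENNReal.ofReal (3300 / s) * volume (dd n c₀ j) := by
      have := slab (w + m - 1) (w + m + 2) (by linarith)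
      refine this.trans (le_of_eq ?_)
      congr 2
      ring
    have hm0 : (0:ℝ) ≤ m := Nat.cast_nonneg m
    have key : volume (NN n k ∩ R m) ≤
        ENNReal.ofReal (50 * C * Real.exp (-(m:ℝ) / 2)) * volume U := by
      refine hVit (R m) U (NN n k) (fun x => 1 / (1000 * ‖L n x (j + 1)‖))
        (1 / (50 * ‖L n c₀ j‖)) _ (by positivity) ?_
      rintro x ⟨hx1, hx2, hx3, hx4⟩
      set u := Real.log ‖X n x (j + 1)‖ with hu
      have h6 : umin D ≤ u := by linarith
      have h8 : 0 < ‖X n x (j + 1)‖ := by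
        by_contra h9
        have : ‖X n x (j + 1)‖ = 0 := le_antisymm (not_lt.mp h9) (norm_nonneg _)
        rw [hu, this, Real.log_zero] at h6
        linarith
      have h9 : ‖X n x (j + 1)‖ = Real.exp u := (Real.exp_log h8).symm
      have h10 : 10 ^ 20 ≤ ‖X n x (j + 1)‖ := by
        rw [h9]
        exact (exp_umin hD).trans (Real.exp_le_exp.mpr h6)
      have h11 : 1 ≤ ‖X n x (j + 1)‖ := le_trans (by norm_num) h10
      have halv := halvN x hx1
      have h12 := halv.2.2 (j + 1)
      obtain ⟨g1, g2, g3⟩ := hStg n hn c₀ x j cfg.geo h104 h3 hY1 hY2 hx2 h11 h12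
      have hLx : 0 < ‖L n x (j + 1)‖ := norm_pos_iff.mpr g1.L0
      have hXn : 0 ≤ ‖X n x (j + 1)‖ := norm_nonneg _
      have cfg' : Cfg n x (j + 1) (2 * ‖X n x (j + 1)‖ * D) := by
        refine ⟨g1, by nlinarith, ?_⟩
        intro c hc
        have hc' := g2 hc
        have hvar := (hVar n hn2 x (j + 1) g1 c hc).2.1
        have hX2 : ‖X n c (j + 1)‖ ≤ (1 + 1 / 50) * ‖X n x (j + 1)‖ := by
          have := norm_sub_norm_le (X n c (j + 1)) (X n x (j + 1))
          linarith
        refine hPhs n hn2 c j D _ (cfg.geo.nz c hc').1 hD (by nlinarith) (cfg.ph c hc') (g3 c hc) ?_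
        calc 3 / 2 * ‖X n c (j + 1)‖ * D ≤ 3 / 2 * ((1 + 1 / 50) * ‖X n x (j + 1)‖) * D := by
              gcongr
          _ ≤ 2 * ‖X n x (j + 1)‖ * D := by
              have : 0 ≤ ‖X n x (j + 1)‖ * D := by positivity
              nlinarith
      have hlog' : Real.log (2 * ‖X n x (j + 1)‖ * D) ^ 4 ≤ ‖X n x (j + 1)‖ := by
        rw [h9]
        exact num1 hD h6
      have hfr := hF n hn x (j + 1) _ cfg' h10 h12 hlog' (by linarith [halv.1])
        (by linarith [halv.2.1])
      have hr0 : 0 < 1 / (1000 * ‖L n x (j + 1)‖) := by positivity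
      have hxDD : x ∈ DD n x (j + 1) := mem_closedBall_self (by positivity)
      refine ⟨hr0, ?_, ?_, ?_⟩
      · -- the radius is bounded
        have h13 : (x + ((1 / (100 * ‖L n x (j + 1)‖) : ℝ) : ℂ)) ∈ DD n x (j + 1) := by
          unfold DD
          rw [mem_closedBall, dist_eq_norm, add_sub_cancel_left, Complex.norm_real,
            Real.norm_eq_abs, abs_of_pos (by positivity)]
        have h14 := g2 h13
        have h15 := g2 hxDD
        unfold DD at h14 h15
        rw [mem_closedBall, dist_eq_norm] at h14 h15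
        have h16 : ‖((1 / (100 * ‖L n x (j + 1)‖) : ℝ) : ℂ)‖ ≤
            1 / (100 * ‖L n c₀ j‖) + 1 / (100 * ‖L n c₀ j‖) := by
          have : ((1 / (100 * ‖L n x (j + 1)‖) : ℝ) : ℂ) =
              (x + ((1 / (100 * ‖L n x (j + 1)‖) : ℝ) : ℂ) - c₀) - (x - c₀) := by ring
          rw [this]
          exact (norm_sub_le _ _).trans (add_le_add h14 h15)
        rw [Complex.norm_real, Real.norm_eq_abs, abs_of_pos (by positivity)] at h16
        have h17 : 1 / (1000 * ‖L n x (j + 1)‖) ≤ 1 / (100 * ‖L n x (j + 1)‖) := by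
          gcongr
          norm_num
        have h18 : 1 / (100 * ‖L n c₀ j‖) + 1 / (100 * ‖L n c₀ j‖) = 1 / (50 * ‖L n c₀ j‖) := by
          field_simp
          norm_num
        linarith
      · intro c hc
        have hc2 : c ∈ DD n x (j + 1) := by
          refine closedBall_subset_closedBall ?_ hc
          gcongr
          norm_num
        refine ⟨g2 hc2, ?_⟩
        have hvar := (hVar n hn2 x (j + 1) g1 c hc2).2.1
        have hX2 : ‖X n c (j + 1)‖ ≤ (1 + 1 / 50) * ‖X n x (j + 1)‖ := by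
          have := norm_sub_norm_le (X n c (j + 1)) (X n x (j + 1))
          linarith
        have hX3 : (1 - 1 / 50) * ‖X n x (j + 1)‖ ≤ ‖X n c (j + 1)‖ := by
          have := norm_sub_norm_le (X n x (j + 1)) (X n c (j + 1))
          rw [norm_sub_rev] at this
          linarith
        have hc0 : 0 < ‖X n c (j + 1)‖ := lt_of_lt_of_le (by positivity) hX3
        have he1 : (2:ℝ) ≤ Real.exp 1 := by
          have := Real.add_one_le_exp (1:ℝ); linarith
        constructor
        · have h20 : u - 1 ≤ Real.log ‖X n c (j + 1)‖ := by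
            rw [Real.le_log_iff_exp_le hc0, Real.exp_sub, ← h9, div_le_iff₀ (Real.exp_pos 1)]
            nlinarith
          linarith
        · have h20 : Real.log ‖X n c (j + 1)‖ ≤ u + 1 := by
            rw [Real.log_le_iff_le_exp hc0, Real.exp_add, ← h9]
            nlinarith
          linarith
      · have h21 : closedBall x (5 * (1 / (1000 * ‖L n x (j + 1)‖))) = dd n x (j + 1) := by
          unfold dd
          congr 1
          field_simp
          norm_num
        rw [h21]
        refine hfr.trans ?_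
        rw [vol_dd, ← mul_assoc]
        gcongr
        rw [mul_comm, show (25:ENNReal) = ENNReal.ofReal 25 by norm_num,
          ← ENNReal.ofReal_mul (by norm_num)]
        apply ENNReal.ofReal_le_ofReal
        have h22 := tail_num (Λ := Lam i n) (D := D) (u := u) (m := m) hLam hD hm0
          (by rw [← hw]; exact hx3)
        rw [h9]
        calc 25 * (C * (Lam i n + Real.log (2 * Real.exp u * D)) / Real.exp u)
            = 25 * C * ((Lam i n + Real.log (2 * Real.exp u * D)) / Real.exp u) := by ring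
          _ ≤ 25 * C * (2 * Real.exp (-(m:ℝ) / 2)) := by gcongr
          _ = _ := by ring
    have h1 : R m = NN n k ∩ R m := by
      ext c
      constructor
      · intro h; exact ⟨h.1, h⟩
      · intro h; exact h.2
    rw [h1]
    refine key.trans ?_
    calc ENNReal.ofReal (50 * C * Real.exp (-(m:ℝ) / 2)) * volume U
        ≤ ENNReal.ofReal (50 * C * Real.exp (-(m:ℝ) / 2)) *
          (ENNReal.ofReal (3300 / s) * volume (dd n c₀ j)) := by gcongr
      _ = _ := by
          rw [← mul_assoc, ← ENNReal.ofReal_mul (by positivity)]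
          congr 2
          ring
  calc volume (NN n k ∩ dd n c₀ j) ≤ volume (R0 ∪ ⋃ m ∈ Finset.range K, R m) := measure_mono hcov
    _ ≤ volume R0 + volume (⋃ m ∈ Finset.range K, R m) := measure_union_le _ _
    _ ≤ volume R0 + ∑ m ∈ Finset.range K, volume (R m) := by
        gcongr
        exact measure_biUnion_finset_le _ _
    _ ≤ ENNReal.ofReal (1100 * (w + 4 + Real.log D) / s) * volume (dd n c₀ j) +
        ∑ m ∈ Finset.range K,
          ENNReal.ofReal (165000 * C * Real.exp (-(m:ℝ) / 2) / s) * volume (dd n c₀ j) := by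
        gcongr with m hm
        exact hRv m
    _ = ENNReal.ofReal (1100 * (w + 4 + Real.log D) / s) * volume (dd n c₀ j) +
        ENNReal.ofReal (∑ m ∈ Finset.range K, 165000 * C * Real.exp (-(m:ℝ) / 2) / s) *
            volume (dd n c₀ j) := by
        rw [ENNReal.ofReal_sum_of_nonneg (fun m _ => by positivity), Finset.sum_mul]
    _ ≤ ENNReal.ofReal (1100 * (w + 4 + Real.log D) / s) * volume (dd n c₀ j) +
        ENNReal.ofReal (495000 * C / s) * volume (dd n c₀ j) := by
        gcongr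
        have h1 : ∑ m ∈ Finset.range K, 165000 * C * Real.exp (-(m:ℝ) / 2) / s =
            165000 * C / s * ∑ m ∈ Finset.range K, Real.exp (-(m:ℝ) / 2) := by
          rw [Finset.mul_sum]
          apply Finset.sum_congr rfl
          intro m _
          ring
        rw [h1]
        calc 165000 * C / s * ∑ m ∈ Finset.range K, Real.exp (-(m:ℝ) / 2)
            ≤ 165000 * C / s * 3 := by
              gcongr
              exact geom_sum
          _ = 495000 * C / s := by ring
    _ ≤ _ := by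
        rw [← add_mul, ← ENNReal.ofReal_add (by positivity) (by positivity)]
        gcongr
        rw [← add_div]
        gcongr
        have h1 := umin_le hD
        show _ ≤ (60000 + 495000 * C) * (1 + Real.log (Lam i n) + Real.log D)
        nlinarith [mul_nonneg hC hlLam, mul_nonneg hC hΛ]

theorem UU_all (i : ℕ) : ∃ C : ℝ, 0 < C ∧ UU i C := by
  induction i with
  | zero => exact ⟨1, one_pos, UU_zero⟩
  | succ i ih =>
    obtain ⟨C, hC, h⟩ := ih
    exact ⟨60000 + 495000 * C, by positivity, UU_succ hC.le h⟩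

end Pool.Agent.TH363.CD
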