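import Mathlib
import Pool.Agent.TH363.CD.Upper2
import Pool.Agent.TH363.CD.Ann
import Pool.Agent.TH363.CD.Top
import Pool.Agent.TH363.CD.Uniq
import Pool.Agent.W230.MB.Fin2
import Pool.Agent.W216.MB.ANN
import Pool.Agent.W216.MB.BAS

/-! The global bound for the parameters without attracting cycle of period at most `k`. The
summation over dyadic annuli follows the file `W230.MB.Fin2`. -/

set_option autoImplicit false
open Metric MeasureTheory Set Filter Topology

namespace Pool.Agent.TH363.CD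

open Pool.Agent.W747.MB

theorem NN_two {n k : ℕ} (hn : 2 ≤ n) {c : ℂ} (hc : c ∈ NN n k) : Y n c ≤ 2 * n := by
  have h := Pool.Agent.H749R2.Hyp.t_le_two hn hc.1
  unfold Y
  have hn0 : (0 : ℝ) ≤ n := Nat.cast_nonneg n
  nlinarith [mul_le_mul_of_nonneg_left h hn0]

/-- `log (2 y) ^ 4 ≤ y` for large `y`. -/
theorem log_two_four {y : ℝ} (hy : 10 ^ 20 ≤ y) : Real.log (2 * y) ^ 4 ≤ y := by
  have hy0 : 0 < y := lt_of_lt_of_le (by norm_num) hy
  set t : ℝ := Real.log (2 * y) with ht
  have ht0 : 0 ≤ t := Real.log_nonneg (by nlinarith)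
  have he : Real.exp t = 2 * y := Real.exp_log (by linarith)
  -- `y ^ (1/4) ≥ log (2 y)` by `log x ≤ ...`
  have h40 : 40 ≤ t := by
    rw [ht, Real.le_log_iff_exp_le (by linarith)]
    have h1 : Real.exp 40 = Real.exp 1 ^ 40 := by rw [← Real.exp_nat_mul]; norm_num
    rw [h1]
    calc Real.exp 1 ^ 40 ≤ (2.7182818286:ℝ) ^ 40 := by
          gcongr
          exact Real.exp_one_lt_d9.le
      _ ≤ 2 * 10 ^ 20 := by norm_num
      _ ≤ 2 * y := by linarith
  have h5 : 2 * t ^ 4 ≤ Real.exp t := by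
    have h6 : Real.exp t = Real.exp (t / 8) ^ 8 := by rw [← Real.exp_nat_mul]; congr 1; ring
    have h7 : 1 + t / 8 + (t / 8) ^ 2 / 2 ≤ Real.exp (t / 8) :=
      Real.quadratic_le_exp_of_nonneg (by linarith)
    have h8 : (5 / 2) * (t / 8) ≤ Real.exp (t / 8) := by nlinarith
    have h9 : (12:ℝ) ≤ Real.exp (t / 8) := by nlinarith
    have h10 : t / 8 + (t / 8) ^ 2 / 2 ≤ Real.exp (t / 8) := by linarith
    have h11 : (7 / 2) * (t / 8) ≤ Real.exp (t / 8) := by nlinarith
    rw [h6]
    have h12 : (t * (7 / 16)) ^ 4 ≤ Real.exp (t / 8) ^ 4 := by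
      apply pow_le_pow_left₀ (by positivity)
      linarith
    have h13 : (12:ℝ) ^ 4 ≤ Real.exp (t / 8) ^ 4 := by
      apply pow_le_pow_left₀ (by norm_num) h9
    have h14 : 0 ≤ Real.exp (t / 8) ^ 4 := by positivity
    have h15 : Real.exp (t / 8) ^ 8 = Real.exp (t / 8) ^ 4 * Real.exp (t / 8) ^ 4 := by ring
    rw [h15]
    have h16 : (t * (7 / 16)) ^ 4 * 12 ^ 4 ≤ Real.exp (t / 8) ^ 4 * Real.exp (t / 8) ^ 4 := by
      gcongr
    have h17 : (t * (7 / 16)) ^ 4 * 12 ^ 4 = t ^ 4 * ((7 / 16) ^ 4 * 12 ^ 4) := by ring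
    rw [h17] at h16
    have h18 : 0 ≤ t ^ 4 := by positivity
    nlinarith
  linarith

theorem annulusN {i : ℕ} {C : ℝ} (hC : 0 < C) (hU : UU i C)
    {n : ℕ} (hn : 10 ^ 6 ≤ n) {y : ℝ} (hy : 10 ^ 20 ≤ y) (hy2 : y ≤ 2 * n) :
    volume (NN n (i + 1) ∩ {c | y ≤ Y n c ∧ Y n c ≤ 2 * y}) ≤
      ENNReal.ofReal (300000 * C * (Lam i n + 1 + Real.log y) / (n * y)) := by
  have hn2 : 2 ≤ n := by omega
  have hnR : (10 : ℝ) ^ 6 ≤ n := by exact_mod_cast hn
  have hn0 : (0 : ℝ) < n := by linarith
  have hn1 : (0 : ℝ) < (n : ℝ) - 1 := by linarith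
  have hy0 : 0 < y := by linarith
  have hy1 : 1 ≤ y := by linarith
  have hlog : 0 ≤ Real.log y := Real.log_nonneg hy1
  have hLam : 1 ≤ Lam i n := one_le_Lam (by linarith) i
  set F : ℝ := 50 * C * (Lam i n + 1 + Real.log y) / y with hF
  have hF0 : 0 ≤ F := by positivity
  have key := hVit {c | y ≤ Y n c ∧ Y n c ≤ 2 * y} {c | y / 2 ≤ Y n c ∧ Y n c ≤ 4 * y}
    (NN n (i + 1))
    (fun x => ‖x‖ / (1000 * ((n : ℝ) - 1))) 4 F hF0 (fun x hx => by
      obtain ⟨hx1, hx2⟩ := hx
      have hYdef : Y n x = n * ‖x‖ ^ (n - 1) := rfl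
      have hx0 : 0 < ‖x‖ := by
        rcases (norm_nonneg x).eq_or_lt with h | h
        · exfalso
          rw [hYdef, ← h, zero_pow (by omega), mul_zero] at hx1
          linarith
        · exact h
      have hx4 : ‖x‖ ≤ 4 := by
        by_contra hcon
        rw [not_le] at hcon
        have h1 : ‖x‖ ≤ ‖x‖ ^ (n - 1) := le_self_pow₀ (by linarith) (by omega)
        have h2 := mul_le_mul_of_nonneg_left h1 hn0.le
        rw [← hYdef] at h2
        nlinarith
      refine ⟨by positivity, ?_, ?_, ?_⟩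
      · rw [div_le_iff₀ (by positivity)]
        nlinarith
      · intro c hc
        rw [mem_closedBall, dist_eq_norm] at hc
        have h1 := Pool.Agent.W230.MB.Y_ratio (θ := 1 / 1000) hn2 (x := x) (c := c) (by norm_num)
          (by norm_num) (by
          refine hc.trans (le_of_eq ?_)
          field_simp)
        have h2 : Real.exp (1 / 1000) ≤ 2 := by
          have h3 : Real.exp (1 / 1000 : ℝ) ≤ Real.exp (Real.log 2) :=
            Real.exp_le_exp.2 (by linarith [Real.log_two_gt_d9])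
          rwa [Real.exp_log (by norm_num)] at h3
        constructor
        · show y / 2 ≤ Y n c
          linarith [h1.1]
        · show Y n c ≤ 4 * y
          have h3 : Real.exp (1 / 1000) * Y n x ≤ 2 * Y n x :=
            mul_le_mul_of_nonneg_right h2 (by linarith)
          linarith [h1.2]
      · have h5r : 5 * (‖x‖ / (1000 * ((n : ℝ) - 1))) = ‖x‖ / (200 * ((n : ℝ) - 1)) := by
          field_simp
          norm_num
        rw [h5r]
        by_cases h3n : Y n x ≤ 3 * n
        · obtain ⟨hcfg, hL1, hX1⟩ := Pool.Agent.W216.MB.BAS.main n hn2 x (by linarith)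
          have hnorm : ‖L n x 1‖ = ((n : ℝ) - 1) / ‖x‖ := by
            rw [hL1, norm_div]
            congr 1
            have : ((n : ℂ) - 1) = (((n : ℝ) - 1 : ℝ) : ℂ) := by push_cast; rfl
            rw [this, Complex.norm_real, Real.norm_eq_abs, abs_of_pos hn1]
          have hdd : dd n x 1 = closedBall x (‖x‖ / (200 * ((n : ℝ) - 1))) := by
            unfold dd
            rw [hnorm]
            congr 1
            field_simp
          have hYx20 : 10 ^ 20 ≤ Y n x := hy.trans hx1
          have h1 := hU n hn x 1 (2 * Y n x) hcfg (by rw [hX1]; exact hYx20)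
            (by rw [hX1]; exact h3n) (by rw [hX1]; exact log_two_four hYx20) (by linarith) h3n
          rw [hdd, hX1, show 1 + i = i + 1 by ring] at h1
          refine h1.trans ?_
          rw [Complex.volume_closedBall, Complex.volume_closedBall]
          have hr0 : 0 ≤ ‖x‖ / (1000 * ((n : ℝ) - 1)) := by positivity
          rw [← h5r, ENNReal.ofReal_mul (by norm_num), mul_pow]
          have e1 : ENNReal.ofReal 5 ^ 2 = ENNReal.ofReal 25 := by
            rw [← ENNReal.ofReal_pow (by norm_num)]; norm_num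
          rw [e1]
          have hYx : 0 < Y n x := by linarith
          have hlx : 0 ≤ Real.log (2 * Y n x) := Real.log_nonneg (by linarith)
          have hreal : C * (Lam i n + Real.log (2 * Y n x)) / Y n x * 25 ≤ F := by
            have h4 : Real.log (2 * Y n x) ≤ Real.log y + 2 := by
              have h5 : Real.log (2 * Y n x) ≤ Real.log (2 * (2 * y)) :=
                Real.log_le_log (by linarith) (by linarith)
              have h5' : Real.log (2 * (2 * y)) = Real.log 2 + (Real.log 2 + Real.log y) := by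
                rw [Real.log_mul (by norm_num) (by linarith), Real.log_mul (by norm_num) hy0.ne']
              rw [h5'] at h5
              linarith [Real.log_two_lt_d9]
            have h6 : C * (Lam i n + Real.log (2 * Y n x)) / Y n x ≤
                C * (2 * (Lam i n + 1 + Real.log y)) / y := by
              refine div_le_div₀ (by positivity) (mul_le_mul_of_nonneg_left (by linarith) hC.le)
                hy0 hx1
            rw [hF]
            calc C * (Lam i n + Real.log (2 * Y n x)) / Y n x * 25 ≤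
                C * (2 * (Lam i n + 1 + Real.log y)) / y * 25 :=
                  mul_le_mul_of_nonneg_right h6 (by norm_num)
              _ = 50 * C * (Lam i n + 1 + Real.log y) / y := by ring
          calc ENNReal.ofReal (C * (Lam i n + Real.log (2 * Y n x)) / Y n x) *
                (ENNReal.ofReal 25 * ENNReal.ofReal (‖x‖ / (1000 * ((n : ℝ) - 1))) ^ 2 *
                  (NNReal.pi : ENNReal))
              = ENNReal.ofReal (C * (Lam i n + Real.log (2 * Y n x)) / Y n x) *
                  ENNReal.ofReal 25 *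
                (ENNReal.ofReal (‖x‖ / (1000 * ((n : ℝ) - 1))) ^ 2 *
                  (NNReal.pi : ENNReal)) := by ring
            _ = ENNReal.ofReal (C * (Lam i n + Real.log (2 * Y n x)) / Y n x * 25) *
                (ENNReal.ofReal (‖x‖ / (1000 * ((n : ℝ) - 1))) ^ 2 *
                  (NNReal.pi : ENNReal)) := by
                rw [ENNReal.ofReal_mul' (by norm_num)]
            _ ≤ _ := by
                gcongr
        · have hempty : NN n (i + 1) ∩ closedBall x (‖x‖ / (200 * ((n : ℝ) - 1))) = ∅ := by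
            rw [eq_empty_iff_forall_notMem]
            rintro c ⟨hc1, hc2⟩
            rw [mem_closedBall, dist_eq_norm] at hc2
            have h1 := Pool.Agent.W230.MB.Y_ratio (θ := 1 / 200) hn2 (x := x) (c := c)
              (by norm_num) (by norm_num) (by
              refine hc2.trans (le_of_eq ?_)
              field_simp)
            have h2 := NN_two hn2 hc1
            rw [not_le] at h3n
            linarith [h1.1]
          rw [hempty, measure_empty]
          exact bot_le)
  have hUa := Pool.Agent.W216.MB.ANN.main n hn2 (y / 2) (4 * y) (by positivity) (by linarith)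
    (by linarith)
  have h8 : 4 * y / (y / 2) = 8 := by
    field_simp
    norm_num
  rw [h8] at hUa
  refine key.trans ?_
  calc ENNReal.ofReal F * volume {c | y / 2 ≤ Y n c ∧ Y n c ≤ 4 * y}
      ≤ ENNReal.ofReal F * ENNReal.ofReal (2000 * Real.log 8 / n) := by gcongr
    _ = ENNReal.ofReal (F * (2000 * Real.log 8 / n)) := (ENNReal.ofReal_mul hF0).symm
    _ ≤ _ := by
        apply ENNReal.ofReal_le_ofReal
        have h1 : 2000 * Real.log 8 / n ≤ 6000 / n :=
          div_le_div_of_nonneg_right (by linarith [Pool.Agent.W230.MB.log8]) hn0.le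
        calc F * (2000 * Real.log 8 / n) ≤ F * (6000 / n) := mul_le_mul_of_nonneg_left h1 hF0
          _ = _ := by
            rw [hF]
            field_simp
            norm_num

theorem tailN {i : ℕ} {C : ℝ} (hC : 0 < C) (hU : UU i C)
    {n : ℕ} (hn : 10 ^ 6 ≤ n) (K : ℕ) : ∀ y : ℝ, 10 ^ 20 ≤ y → 2 * (n : ℝ) < 2 ^ K * y →
    volume (NN n (i + 1) ∩ {c | y ≤ Y n c}) ≤
      ENNReal.ofReal (600000 * C * (Lam i n + 2 + Real.log y) / (n * y)) := by
  have hn2 : 2 ≤ n := by omega
  have hempty : ∀ y : ℝ, 2 * (n : ℝ) < y → volume (NN n (i + 1) ∩ {c | y ≤ Y n c}) = 0 := by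
    intro y hy
    have : NN n (i + 1) ∩ {c | y ≤ Y n c} = ∅ := by
      rw [eq_empty_iff_forall_notMem]
      rintro c ⟨hc1, hc2⟩
      have hc2' : y ≤ Y n c := hc2
      linarith [NN_two hn2 hc1]
    rw [this, measure_empty]
  induction K with
  | zero =>
    intro y _ hy
    rw [pow_zero, one_mul] at hy
    rw [hempty y hy]
    exact bot_le
  | succ K ih =>
    intro y hy1 hy2
    rcases lt_or_ge (2 * (n : ℝ)) y with h | h
    · rw [hempty y h]
      exact bot_le
    have hnR : (10 : ℝ) ^ 6 ≤ n := by exact_mod_cast hn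
    have hn0 : (0 : ℝ) < n := by linarith
    have hy0 : 0 < y := by linarith
    have hLam : 1 ≤ Lam i n := one_le_Lam (by linarith) i
    have hlog : 0 ≤ Real.log y := Real.log_nonneg (by linarith)
    have h1 := annulusN hC hU hn hy1 h
    have h2 := ih (2 * y) (by linarith) (by rw [pow_succ] at hy2; linarith)
    have hsub : NN n (i + 1) ∩ {c | y ≤ Y n c} ⊆
        (NN n (i + 1) ∩ {c | y ≤ Y n c ∧ Y n c ≤ 2 * y}) ∪
        (NN n (i + 1) ∩ {c | 2 * y ≤ Y n c}) := by
      rintro c ⟨hc1, hc2⟩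
      rcases le_total (Y n c) (2 * y) with h3 | h3
      · exact Or.inl ⟨hc1, hc2, h3⟩
      · exact Or.inr ⟨hc1, h3⟩
    refine (measure_mono hsub).trans ((measure_union_le _ _).trans ((add_le_add h1 h2).trans ?_))
    rw [← ENNReal.ofReal_add (by positivity) (by
      have : 0 ≤ Real.log (2 * y) := Real.log_nonneg (by linarith)
      positivity)]
    apply ENNReal.ofReal_le_ofReal
    rw [Real.log_mul (by norm_num) hy0.ne']
    have e1 : 300000 * C * (Lam i n + 1 + Real.log y) / (n * y) +
        600000 * C * (Lam i n + 2 + (Real.log 2 + Real.log y)) / (n * (2 * y)) =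
        300000 * C * (2 * Lam i n + 3 + Real.log 2 + 2 * Real.log y) / (n * y) := by
      field_simp
      ring
    rw [e1]
    refine div_le_div_of_nonneg_right ?_ (by positivity)
    have h3 : 2 * Lam i n + 3 + Real.log 2 + 2 * Real.log y ≤
        2 * (Lam i n + 2 + Real.log y) := by
      linarith [Real.log_two_lt_d9]
    have h4 := mul_le_mul_of_nonneg_left h3 (show 0 ≤ 300000 * C by positivity)
    linarith

theorem log10 : Real.log (10 ^ 20) ≤ 60 := by
  rw [Real.log_pow]
  have : Real.log 10 ≤ 3 := by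
    rw [Real.log_le_iff_le_exp (by norm_num)]
    exact Pool.Agent.W230.MB.exp3
  push_cast
  linarith

/-- The global upper bound. -/
theorem globalN (i : ℕ) : ∃ C : ℝ, 0 < C ∧ ∀ n : ℕ, 10 ^ 6 ≤ n →
    volume (NN n (i + 1)) ≤ ENNReal.ofReal (C * Lam (i + 1) n / n) := by
  obtain ⟨C, hC, hU⟩ := UU_all i
  refine ⟨130000 + 10 ^ 7 * C, by positivity, fun n hn => ?_⟩
  have hn2 : 2 ≤ n := by omega
  have hnR : (10 : ℝ) ^ 6 ≤ n := by exact_mod_cast hn
  have hn0 : (0 : ℝ) < n := by linarith
  have hLam : 1 ≤ Lam i n := one_le_Lam (by linarith) i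
  have hlL : 0 ≤ Real.log (Lam i n) := Real.log_nonneg hLam
  have hLam1 : Lam (i + 1) n = 1 + Real.log (Lam i n) := rfl
  set b : ℝ := 10 ^ 20 * Lam i n with hb
  have hb20 : 10 ^ 20 ≤ b := by rw [hb]; nlinarith
  have hb0 : 0 < b := lt_of_lt_of_le (by norm_num) hb20
  have hlb : Real.log b = Real.log (10 ^ 20) + Real.log (Lam i n) := by
    rw [hb, Real.log_mul (by norm_num) (by linarith)]
  have hl10 := log10
  have hl10' : 0 ≤ Real.log (10 ^ 20) := Real.log_nonneg (by norm_num)
  obtain ⟨K, hK⟩ : ∃ K : ℕ, 2 * (n : ℝ) < 2 ^ K * b := by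
    obtain ⟨K, hK⟩ := pow_unbounded_of_one_lt (2 * (n : ℝ) / b) (show (1 : ℝ) < 2 by norm_num)
    exact ⟨K, by rwa [div_lt_iff₀ hb0] at hK⟩
  have h1 := tailN hC hU hn K b hb20 hK
  set b' : ℝ := min b (2 * n) with hb'
  have hb1 : 1 ≤ b' := le_min (by linarith) (by linarith)
  have hb2 : b' ≤ 12 * n := (min_le_right _ _).trans (by linarith)
  have h2 := Pool.Agent.W216.MB.ANN.main n hn2 (1 / 3) b' (by norm_num) (by linarith) hb2
  have hsub : NN n (i + 1) ⊆ {c : ℂ | 1 / 3 ≤ Y n c ∧ Y n c ≤ b'} ∪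
      (NN n (i + 1) ∩ {c | b ≤ Y n c}) := by
    intro c hc
    obtain ⟨a1, a2, a3⟩ := alv' hn hc.1 (hc.2 1 le_rfl (by omega))
    rcases le_total b (Y n c) with h3 | h3
    · exact Or.inr ⟨hc, h3⟩
    · exact Or.inl ⟨a1, le_min h3 a2⟩
  refine (measure_mono hsub).trans ((measure_union_le _ _).trans ((add_le_add h2 h1).trans ?_))
  have h3b : Real.log (b' / (1 / 3)) ≤ 62 + Real.log (Lam i n) := by
    have e1 : b' / (1 / 3) = 3 * b' := by ring
    rw [e1, Real.log_mul (by norm_num) (by linarith)]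
    have h4 : Real.log b' ≤ Real.log b := Real.log_le_log (by linarith) (min_le_left _ _)
    have h5 : Real.log 3 ≤ 2 := by
      linarith [Real.log_le_sub_one_of_pos (show (0:ℝ) < 3 by norm_num)]
    linarith
  have h3b0 : 0 ≤ Real.log (b' / (1 / 3)) := by
    apply Real.log_nonneg
    rw [le_div_iff₀ (by norm_num)]
    linarith
  have hlb0 : 0 ≤ Real.log b := by rw [hlb]; positivity
  rw [← ENNReal.ofReal_add (by positivity) (by positivity)]
  apply ENNReal.ofReal_le_ofReal
  have h5 : 600000 * C * (Lam i n + 2 + Real.log b) / (n * b) ≤ 600000 * C * 2 / n := by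
    rw [div_le_div_iff₀ (by positivity) hn0]
    have h6 : Real.log b ≤ 62 + Lam i n := by
      rw [hlb]
      have := Real.log_le_sub_one_of_pos (show 0 < Lam i n by linarith)
      linarith
    have h7 : Lam i n + 2 + Real.log b ≤ 2 * b := by
      rw [hb]; nlinarith
    have h8 : 600000 * C * (Lam i n + 2 + Real.log b) ≤ 600000 * C * (2 * b) := by
      gcongr
    nlinarith
  calc 2000 * Real.log (b' / (1 / 3)) / n + 600000 * C * (Lam i n + 2 + Real.log b) / (n * b)
      ≤ 2000 * (62 + Real.log (Lam i n)) / n + 600000 * C * 2 / n := by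
        gcongr
    _ = (2000 * (62 + Real.log (Lam i n)) + 600000 * C * 2) / n := by ring
    _ ≤ (130000 + 10 ^ 7 * C) * Lam (i + 1) n / n := by
        rw [hLam1]
        gcongr
        have h9 : 0 ≤ C * Real.log (Lam i n) := by positivity
        nlinarith

/-- `Lam k n` is comparable with the iterated logarithm. -/
theorem Lam_le (k : ℕ) : ∃ C : ℝ, 1 ≤ C ∧ ∀ᶠ n : ℕ in atTop,
    Lam k n ≤ C * Real.log^[k] (n:ℝ) := by
  induction k with
  | zero =>
    refine ⟨4, by norm_num, Eventually.of_forall fun n => ?_⟩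
    simp [Lam]
  | succ k ih =>
    obtain ⟨C, hC, ih⟩ := ih
    refine ⟨2, by norm_num, ?_⟩
    have hlC : 0 ≤ Real.log C := Real.log_nonneg hC
    filter_upwards [ih, (tendsto_iterlog (k + 1)).eventually_ge_atTop (1 + Real.log C),
      (tendsto_iterlog k).eventually_ge_atTop 1, eventually_ge_atTop 1] with n h1 h2 h3 h4
    have hn1 : (1:ℝ) ≤ n := by exact_mod_cast h4
    have hLam := one_le_Lam hn1 k
    show 1 + Real.log (Lam k n) ≤ _
    have h5 : Real.log (Lam k n) ≤ Real.log (C * Real.log^[k] (n:ℝ)) :=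
      Real.log_le_log (by linarith) h1
    rw [Real.log_mul (by linarith) (by linarith)] at h5
    rw [Function.iterate_succ_apply'] at h2 ⊢
    linarith

/-- The upper bound for the parameters without attracting cycle of period at most `k`. -/
theorem upperN {k : ℕ} (hk : 1 ≤ k) : ∃ C : ℝ, 0 < C ∧ ∀ᶠ n : ℕ in atTop,
    volume (NN n k) ≤ ENNReal.ofReal (C * Real.log^[k] (n:ℝ) / n) := by
  obtain ⟨i, rfl⟩ : ∃ i, k = i + 1 := ⟨k - 1, by omega⟩
  obtain ⟨C, hC, h1⟩ := globalN i
  obtain ⟨C', hC', h2⟩ := Lam_le (i + 1)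
  refine ⟨C * C', by positivity, ?_⟩
  filter_upwards [h2, eventually_ge_atTop (10 ^ 6)] with n h3 h4
  refine (h1 n h4).trans (ENNReal.ofReal_le_ofReal ?_)
  have hn0 : (0:ℝ) ≤ n := Nat.cast_nonneg n
  rw [mul_assoc]
  gcongr

/-- The lower bound for the parameters with an attracting cycle of exact period `k + 1`. -/
theorem lowerN {k : ℕ} (hk : 1 ≤ k) : ∃ a : ℝ, 0 < a ∧ ∀ᶠ n : ℕ in atTop,
    ENNReal.ofReal (a * Real.log^[k] (n:ℝ) / n) ≤ volume (Ex n (k + 1)) := by
  obtain ⟨i, rfl⟩ : ∃ i, k = i + 1 := ⟨k - 1, by omega⟩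
  obtain ⟨K, hK, h1⟩ := top i
  refine ⟨1 / (2 * K), by positivity, ?_⟩
  filter_upwards [eventually_ge_atTop (10 ^ 6), iter_bound i,
    (tendsto_iterlog i).eventually_ge_atTop (10 ^ 39),
    (tendsto_iterlog (i + 1)).eventually_ge_atTop (2 * Real.log (10 ^ 39))] with n h2 h3 h4 h5
  have hnR : (10 : ℝ) ^ 6 ≤ n := by exact_mod_cast h2
  have hn0 : (0 : ℝ) < n := by linarith
  set b : ℝ := Real.log^[i] (n:ℝ) / 10 ^ 9 with hb
  have h6 := h1 n h2 b (by
    have e : 10 ^ 8 * b = Real.log^[i] (n:ℝ) / 10 := by rw [hb]; ring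
    rw [e]; exact h3)
  have hb30 : 10 ^ 30 ≤ b := by
    rw [hb, le_div_iff₀ (by norm_num)]
    linarith
  have h7 := annulus_lower h2 (show (1:ℝ) ≤ 10 ^ 30 by norm_num) hb30
  have h8 : Real.log (b / 10 ^ 30) = Real.log^[i + 1] (n:ℝ) - Real.log (10 ^ 39) := by
    rw [hb, div_div, Function.iterate_succ_apply', ← Real.log_div (by linarith) (by norm_num)]
    congr 2
    norm_num
  have h9 : 1 / 2 * Real.log^[i + 1] (n:ℝ) ≤ Real.log (b / 10 ^ 30) := by
    rw [h8]
    generalize Real.log (10 ^ 39) = q at h5 ⊢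
    generalize Real.log^[i + 1] (n:ℝ) = w at h5 ⊢
    linarith
  have h10 : ENNReal.ofReal (1 / 2 * Real.log^[i + 1] (n:ℝ) / n) ≤
      ENNReal.ofReal K * volume (Ex n (i + 2)) := by
    refine le_trans (ENNReal.ofReal_le_ofReal ?_) (h7.trans h6)
    gcongr
  have h11 : ENNReal.ofReal (1 / (2 * K) * Real.log^[i + 1] (n:ℝ) / n) =
      ENNReal.ofReal (1 / K) * ENNReal.ofReal (1 / 2 * Real.log^[i + 1] (n:ℝ) / n) := by
    rw [← ENNReal.ofReal_mul (by positivity)]
    congr 1
    field_simp
  rw [h11]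
  calc ENNReal.ofReal (1 / K) * ENNReal.ofReal (1 / 2 * Real.log^[i + 1] (n:ℝ) / n)
      ≤ ENNReal.ofReal (1 / K) * (ENNReal.ofReal K * volume (Ex n (i + 2))) := by gcongr
    _ = ENNReal.ofReal (1 / K * K) * volume (Ex n (i + 2)) := by
        rw [ENNReal.ofReal_mul (by positivity), mul_assoc]
    _ = volume (Ex n (i + 1 + 1)) := by
        rw [one_div_mul_cancel hK.ne', ENNReal.ofReal_one, one_mul]

/-- The parameters with an attracting cycle of exact period `k + 1` have no attracting cycle of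
period at most `k`. -/
theorem Ex_sub_NN {n : ℕ} (hn : 2 ≤ n) (k : ℕ) : Ex n (k + 1) ⊆ NN n k := by
  rintro c ⟨z, hz, hper⟩
  refine ⟨mem_multibrot hn hz, ?_⟩
  rintro m hm1 hmk ⟨w, hw⟩
  have h1 := period_unique hn hz hw
  rw [hper] at h1
  have h2 : Function.minimalPeriod (f n c) w ≤ m := Function.IsPeriodicPt.minimalPeriod_le hm1 hw.2.1
  omega

end Pool.Agent.TH363.CD
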